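import Pool.Agent.N915.PV.Stm

/-!
# Project PV (helper915), part ASM: a set of density zero for countably many sequences

By helper7.
-/

set_option autoImplicit false

namespace Pool.Agent.N915.PV

open Finset Filter Topology Polynomial

namespace ASMaux

theorem geo (i0 n : ℕ) : ∑ j ∈ range n, (2 : ℝ) ^ (i0 + j) ≤ 2 ^ (i0 + n) := by
  induction n with
  | zero => simp
  | succ n ih =>
    rw [sum_range_succ]
    calc ∑ j ∈ range n, (2 : ℝ) ^ (i0 + j) + 2 ^ (i0 + n) ≤ 2 ^ (i0 + n) + 2 ^ (i0 + n) := by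
          gcongr
      _ = 2 ^ (i0 + (n + 1)) := by ring

/-- sums over dyadic blocks -/
theorem dyadic (i0 : ℕ) (c : ℕ → ℝ) (hc : Tendsto c atTop (𝓝 0)) (f : ℕ → ℝ)
    (hf : ∀ N, 0 ≤ f N) (C : ℝ) (h : ∀ k N : ℕ, 2 ^ (i0 + k) ≤ N → N < 2 ^ (i0 + k + 1) →
      f N ≤ C + ∑ j ∈ range (k + 1), 2 ^ (i0 + j) * c j) :
    Tendsto (fun N : ℕ => f N / N) atTop (𝓝 0) := by
  have h1 : (fun n => ∑ j ∈ range n, (2 : ℝ) ^ (i0 + j) * c j) =o[atTop]
      fun n => ∑ j ∈ range n, (2 : ℝ) ^ (i0 + j) := by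
    refine Asymptotics.IsLittleO.sum_range ?_ (fun j => by positivity) ?_
    · have h2 := (Asymptotics.isLittleO_one_iff ℝ).2 hc
      simpa using (Asymptotics.isBigO_refl (fun j : ℕ => (2 : ℝ) ^ (i0 + j)) atTop).mul_isLittleO h2
    · refine tendsto_atTop_mono (f := fun n : ℕ => (n : ℝ)) (fun n => ?_)
        tendsto_natCast_atTop_atTop
      calc (n : ℝ) = ∑ j ∈ range n, (1 : ℝ) := by simp
        _ ≤ _ := sum_le_sum fun j _ => one_le_pow₀ (by norm_num)
  rw [Metric.tendsto_atTop]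
  intro ε hε
  obtain ⟨n1, hn1⟩ := eventually_atTop.1 (h1.def (show (0 : ℝ) < ε / 8 by positivity))
  obtain ⟨n2, hn2⟩ := exists_nat_gt (4 * |C| / ε)
  refine ⟨max (2 ^ (i0 + n1)) (max n2 1), fun N hN => ?_⟩
  have hN1 : 2 ^ (i0 + n1) ≤ N := (le_max_left _ _).trans hN
  have hN2 : n2 ≤ N := ((le_max_left _ _).trans (le_max_right _ _)).trans hN
  have hN3 : 1 ≤ N := ((le_max_right _ _).trans (le_max_right _ _)).trans hN
  have hlog : i0 + n1 ≤ Nat.log 2 N := Nat.le_log_of_pow_le (by norm_num) hN1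
  obtain ⟨k, hk⟩ : ∃ k, Nat.log 2 N = i0 + k := ⟨Nat.log 2 N - i0, by omega⟩
  have hk1 : 2 ^ (i0 + k) ≤ N := by
    rw [← hk]
    exact Nat.pow_log_le_self 2 (by omega)
  have hk2 : N < 2 ^ (i0 + k + 1) := by
    rw [← hk]
    exact Nat.lt_pow_succ_log_self (by norm_num) N
  have h3 := h k N hk1 hk2
  have h4 := hn1 (k + 1) (by omega)
  rw [Real.norm_eq_abs, Real.norm_eq_abs] at h4
  have h5 : |∑ j ∈ range (k + 1), (2 : ℝ) ^ (i0 + j)| ≤ 2 ^ (i0 + (k + 1)) := by
    rw [abs_of_nonneg (sum_nonneg fun j _ => by positivity)]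
    exact geo _ _
  have h6 : (2 : ℝ) ^ (i0 + k) ≤ N := by exact_mod_cast hk1
  have h7 : ∑ j ∈ range (k + 1), (2 : ℝ) ^ (i0 + j) * c j ≤ ε / 4 * N := by
    calc ∑ j ∈ range (k + 1), (2 : ℝ) ^ (i0 + j) * c j
        ≤ |∑ j ∈ range (k + 1), (2 : ℝ) ^ (i0 + j) * c j| := le_abs_self _
      _ ≤ ε / 8 * |∑ j ∈ range (k + 1), (2 : ℝ) ^ (i0 + j)| := h4
      _ ≤ ε / 8 * 2 ^ (i0 + (k + 1)) := by gcongr
      _ = ε / 4 * 2 ^ (i0 + k) := by ring
      _ ≤ ε / 4 * N := by gcongr
  have hNpos : (0 : ℝ) < N := by exact_mod_cast hN3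
  have h8 : C ≤ ε / 4 * N := by
    have h9 : 4 * |C| / ε < N := hn2.trans_le (by exact_mod_cast hN2)
    rw [div_lt_iff₀ hε] at h9
    have := le_abs_self C
    nlinarith
  rw [Real.dist_eq, sub_zero, abs_of_nonneg (div_nonneg (hf N) hNpos.le), div_lt_iff₀ hNpos]
  nlinarith

theorem norm_e (x : ℝ) : ‖e x‖ = 1 := by
  unfold e
  have h : (2 * Real.pi * x * Complex.I : ℂ) = ((2 * Real.pi * x : ℝ) : ℂ) * Complex.I := by
    push_cast
    ring
  rw [h, Complex.norm_exp_ofReal_mul_I]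

/-- the mean values of the correlations tend to zero -/
theorem sum_small (w : ℕ → ℝ) (hw : Tendsto w atTop atTop) {p κ : ℝ} (hp : 0 < p) (hκ : 0 < κ) :
    ∀ᶠ M : ℕ in atTop, ∑ n ∈ range M, ∑ m ∈ range n, Real.exp (-(p * w (n - m))) ≤
      κ * (M : ℝ) ^ 2 := by
  have h1 : Tendsto (fun d : ℕ => Real.exp (-(p * w (d + 1)))) atTop (𝓝 0) := by
    refine Real.tendsto_exp_atBot.comp (tendsto_neg_atTop_atBot.comp ?_)
    exact (hw.comp (tendsto_add_atTop_nat 1)).const_mul_atTop hp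
  have h2 := (h1.cesaro).eventually_le_const hκ
  filter_upwards [h2, eventually_ge_atTop 1] with M hM hM1
  have hMpos : (0 : ℝ) < M := by exact_mod_cast hM1
  have h3 : ∀ n ∈ range M, ∑ m ∈ range n, Real.exp (-(p * w (n - m))) ≤
      ∑ d ∈ range M, Real.exp (-(p * w (d + 1))) := by
    intro n hn
    rw [mem_range] at hn
    have h4 : ∑ m ∈ range n, Real.exp (-(p * w (n - m))) =
        ∑ d ∈ range n, Real.exp (-(p * w (d + 1))) := by
      rw [← sum_range_reflect]
      refine sum_congr rfl fun m hm => ?_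
      rw [mem_range] at hm
      have h5 : n - (n - 1 - m) = m + 1 := by omega
      rw [h5]
    rw [h4]
    exact sum_le_sum_of_subset_of_nonneg (range_mono hn.le) fun _ _ _ => (Real.exp_pos _).le
  calc ∑ n ∈ range M, ∑ m ∈ range n, Real.exp (-(p * w (n - m)))
      ≤ ∑ n ∈ range M, ∑ d ∈ range M, Real.exp (-(p * w (d + 1))) := sum_le_sum h3
    _ = (M : ℝ) ^ 2 * ((M : ℝ)⁻¹ * ∑ d ∈ range M, Real.exp (-(p * w (d + 1)))) := by
        rw [sum_const, card_range, nsmul_eq_mul]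
        field_simp
    _ ≤ (M : ℝ) ^ 2 * κ := by gcongr
    _ = κ * (M : ℝ) ^ 2 := mul_comm _ _

/-- the block `[M, 2M)` can be treated at the stage `s` -/
def Good (y : ℕ → ℕ → ℝ) (s M : ℕ) : Prop :=
  ∀ z : ℕ → ℕ → ℝ, ∃ B : Finset ℕ, B ⊆ Ico M (2 * M) ∧ (B.card : ℝ) ≤ 3 * (1 / (s + 2)) * M ∧
    ∀ r < s, ∀ N ∈ Icc M (2 * M),
      ‖∑ n ∈ Ico M N, e (z r n + ∑ a ∈ B.filter (· ≤ n), y r (n - a))‖ ≤ 1 / (s + 1) * M

theorem good_zero (y : ℕ → ℕ → ℝ) (M : ℕ) : Good y 0 M := by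
  intro z
  refine ⟨∅, by simp, ?_, fun r hr => absurd hr (Nat.not_lt_zero r)⟩
  rw [card_empty, Nat.cast_zero]
  positivity

theorem stage (hB : S_BLK) (y : ℕ → ℕ → ℝ) (hy : ∀ r, ¬ Summable (fun j => nrm (y r j) ^ 2))
    (s : ℕ) : ∀ᶠ M : ℕ in atTop, Good y s M := by
  obtain ⟨p, hp⟩ : ∃ p : ℝ, p = 1 / (s + 2) := ⟨_, rfl⟩
  obtain ⟨η, hη⟩ : ∃ η : ℝ, η = 1 / (s + 1) := ⟨_, rfl⟩
  obtain ⟨κ, hκ⟩ : ∃ κ : ℝ, κ = η ^ 3 / (2000 * (s + 1)) := ⟨_, rfl⟩
  have hs : (0 : ℝ) ≤ s := Nat.cast_nonneg s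
  have hp0 : 0 < p := by rw [hp]; positivity
  have hp1 : p ≤ 1 / 2 := by
    rw [hp]
    apply one_div_le_one_div_of_le <;> linarith
  have hη0 : 0 < η := by rw [hη]; positivity
  have hη1 : η ≤ 1 := by
    rw [hη, div_le_one (by positivity)]
    linarith
  have hκ0 : 0 < κ := by rw [hκ]; positivity
  have h1 : ∀ᶠ M : ℕ in atTop, ∀ r : Fin s, ∑ n ∈ range M, ∑ m ∈ range n,
      Real.exp (-(p * ∑ j ∈ range (n - m), nrm (y r j) ^ 2)) ≤ κ * (M : ℝ) ^ 2 := by
    rw [eventually_all]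
    intro r
    refine sum_small (fun J => ∑ j ∈ range J, nrm (y r j) ^ 2) ?_ hp0 hκ0
    exact (not_summable_iff_tendsto_nat_atTop_of_nonneg (fun j => sq_nonneg _)).1 (hy r)
  have h2 : ∀ᶠ M : ℕ in atTop, 1000 * (s : ℝ) * (1 / M + κ) ≤ η ^ 3 := by
    have h3 : Tendsto (fun M : ℕ => 1000 * (s : ℝ) * (1 / (M : ℝ) + κ)) atTop
        (𝓝 (1000 * (s : ℝ) * (0 + κ))) :=
      (tendsto_one_div_atTop_nhds_zero_nat.add_const κ).const_mul _
    refine h3.eventually_le_const ?_
    rw [zero_add, hκ]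
    have h4 : 1000 * (s : ℝ) * (η ^ 3 / (2000 * (s + 1))) = η ^ 3 * (s / (2 * (s + 1))) := by
      field_simp
      ring
    rw [h4]
    have h5 : (s : ℝ) / (2 * (s + 1)) < 1 := by
      rw [div_lt_one (by positivity)]
      linarith
    have h6 : 0 < η ^ 3 := by positivity
    nlinarith
  filter_upwards [h1, h2, eventually_ge_atTop 1] with M hM1 hM2 hM3
  intro z
  obtain ⟨B, hB1, hB2, hB3⟩ := hB M s p κ η (fun r => y r) (fun r => z r) hM3 hp0 hp1 hη0 hη1
    hκ0.le hM1 hM2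
  refine ⟨B, hB1, ?_, fun r hr N hN => ?_⟩
  · rw [← hp]
    exact hB2
  · rw [← hη]
    exact hB3 ⟨r, hr⟩ N hN

end ASMaux

open ASMaux

open Classical in
/-- **ASM**: a set of density zero for countably many sequences. -/
theorem asm (hB : S_BLK) : S_ASM := by
  intro y K hy
  -- the stages
  obtain ⟨st, hst⟩ : ∃ st : ℕ → ℕ, st = fun i => Nat.findGreatest (fun s => Good y s (2 ^ i)) i :=
    ⟨_, rfl⟩
  have hst1 : ∀ i, Good y (st i) (2 ^ i) := by
    intro i
    rw [hst]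
    exact Nat.findGreatest_spec (P := fun s => Good y s (2 ^ i)) (Nat.zero_le i) (good_zero y _)
  have hst2 : Tendsto st atTop atTop := by
    rw [tendsto_atTop]
    intro s
    have h1 : Tendsto (fun i : ℕ => 2 ^ i) atTop atTop :=
      tendsto_pow_atTop_atTop_of_one_lt (by norm_num)
    filter_upwards [h1.eventually (stage hB y hy s), eventually_ge_atTop s] with i hi hs
    rw [hst]
    exact Nat.le_findGreatest hs hi
  -- the blocks
  have hex : ∀ (k : ℕ) (U : Finset ℕ), ∃ B : Finset ℕ,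
      B ⊆ Ico (2 ^ (K + k)) (2 * 2 ^ (K + k)) ∧
      (B.card : ℝ) ≤ 3 * (1 / (st (K + k) + 2)) * (2 ^ (K + k) : ℕ) ∧
      ∀ r < st (K + k), ∀ N ∈ Icc (2 ^ (K + k)) (2 * 2 ^ (K + k)),
        ‖∑ n ∈ Ico (2 ^ (K + k)) N, e ((∑ a ∈ U.filter (· ≤ n), y r (n - a)) +
          ∑ a ∈ B.filter (· ≤ n), y r (n - a))‖ ≤ 1 / (st (K + k) + 1) * (2 ^ (K + k) : ℕ) :=
    fun k U => hst1 (K + k) (fun r n => ∑ a ∈ U.filter (· ≤ n), y r (n - a))
  choose Bf hB1 hB2 hB3 using hex
  obtain ⟨U, hU0, hUs⟩ : ∃ U : ℕ → Finset ℕ, U 0 = {0} ∧ ∀ k, U (k + 1) = U k ∪ Bf k (U k) :=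
    ⟨fun k => Nat.rec {0} (fun k U => U ∪ Bf k U) k, rfl, fun k => rfl⟩
  have hUr : ∀ k, U k ⊆ range (2 ^ (K + k)) := by
    intro k
    induction k with
    | zero =>
      rw [hU0]
      intro a ha
      rw [mem_singleton] at ha
      rw [ha, mem_range]
      positivity
    | succ k ih =>
      rw [hUs]
      intro a ha
      rw [mem_range]
      have h2 : 2 ^ (K + (k + 1)) = 2 * 2 ^ (K + k) := by ring
      rw [h2]
      rcases mem_union.1 ha with h | h
      · have := mem_range.1 (ih h)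
        omega
      · exact (mem_Ico.1 (hB1 k _ h)).2
  have hUK : ∀ k, ∀ a ∈ U k, a = 0 ∨ K ≤ a := by
    intro k
    induction k with
    | zero =>
      intro a ha
      rw [hU0, mem_singleton] at ha
      exact Or.inl ha
    | succ k ih =>
      intro a ha
      rw [hUs] at ha
      rcases mem_union.1 ha with h | h
      · exact ih a h
      · right
        have h1 := (mem_Ico.1 (hB1 k _ h)).1
        have h2 : K + k < 2 ^ (K + k) := Nat.lt_two_pow_self
        omega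
  have hUmono : ∀ k l, k ≤ l → U k ⊆ U l := by
    intro k l hkl
    induction l, hkl using Nat.le_induction with
    | base => exact subset_rfl
    | succ l _ ih =>
      rw [hUs]
      exact ih.trans subset_union_left
  have hUst : ∀ k l a, a ∈ U l → a < 2 ^ (K + k) → a ∈ U k := by
    intro k l a ha hak
    induction l with
    | zero => exact hUmono 0 k (Nat.zero_le k) ha
    | succ l ih =>
      rw [hUs] at ha
      rcases mem_union.1 ha with h | h
      · exact ih h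
      · have h1 := (mem_Ico.1 (hB1 l _ h)).1
        have h2 : 2 ^ (K + l) < 2 ^ (K + k) := by omega
        have h3 : l < k := by
          have := (Nat.pow_lt_pow_iff_right (by norm_num : 1 < 2)).1 h2
          omega
        have h4 : U (l + 1) ⊆ U k := hUmono _ _ h3
        apply h4
        rw [hUs]
        exact mem_union_right _ h
  obtain ⟨A, hA⟩ : ∃ A : Set ℕ, A = {a | ∃ k, a ∈ U k} := ⟨_, rfl⟩
  have hmemA : ∀ k a, a < 2 ^ (K + k) → (a ∈ A ↔ a ∈ U k) := by
    intro k a ha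
    rw [hA]
    exact ⟨fun ⟨l, hl⟩ => hUst k l a hl ha, fun h => ⟨k, h⟩⟩
  -- the convolution in a block
  have hconv : ∀ r k n, 2 ^ (K + k) ≤ n → n < 2 * 2 ^ (K + k) → conv A (y r) n =
      (∑ a ∈ (U k).filter (· ≤ n), y r (n - a)) +
        ∑ a ∈ (Bf k (U k)).filter (· ≤ n), y r (n - a) := by
    intro r k n hn1 hn2
    unfold conv
    rw [← sum_union]
    · refine sum_congr ?_ fun _ _ => rfl
      ext a
      rw [mem_filter, mem_range, mem_union, mem_filter, mem_filter]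
      have h2 : 2 ^ (K + (k + 1)) = 2 * 2 ^ (K + k) := by ring
      constructor
      · rintro ⟨h1, h3⟩
        have h4 := (hmemA (k + 1) a (by omega)).1 h3
        rw [hUs] at h4
        rcases mem_union.1 h4 with h | h
        · exact Or.inl ⟨h, by omega⟩
        · exact Or.inr ⟨h, by omega⟩
      · intro h
        have h3 : a ∈ U (k + 1) ∧ a ≤ n := by
          rw [hUs]
          rcases h with h | h
          · exact ⟨mem_union_left _ h.1, h.2⟩
          · exact ⟨mem_union_right _ h.1, h.2⟩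
        exact ⟨by omega, (hmemA (k + 1) a (by omega)).2 h3.1⟩
    · rw [disjoint_left]
      intro a ha1 ha2
      have h1 := mem_range.1 (hUr k (mem_filter.1 ha1).1)
      have h2 := (mem_Ico.1 (hB1 k _ (mem_filter.1 ha2).1)).1
      omega
  refine ⟨A, ?_, ?_, ?_, ?_⟩
  · -- density
    refine dyadic K (fun j => 3 * (1 / (st (K + j) + 2))) ?_ (fun N => ((A ∩ Set.Icc 1 N).ncard : ℝ))
      (fun N => Nat.cast_nonneg _) 1 ?_
    · have h1 : Tendsto (fun j : ℕ => ((st (K + j) : ℕ) : ℝ) + 2) atTop atTop := by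
        refine tendsto_atTop_add_const_right _ _ (tendsto_natCast_atTop_atTop.comp (hst2.comp ?_))
        exact tendsto_atTop_mono (fun j => Nat.le_add_left j K) tendsto_id
      have h2 : Tendsto (fun j : ℕ => 1 / (((st (K + j) : ℕ) : ℝ) + 2)) atTop (𝓝 0) := by
        simp only [one_div]
        exact tendsto_inv_atTop_zero.comp h1
      simpa using h2.const_mul 3
    · intro k N hN1 hN2
      have h1 : A ∩ Set.Icc 1 N ⊆ (U (k + 1) : Set ℕ) := by
        rintro a ⟨ha, -, haN⟩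
        exact (hmemA (k + 1) a (lt_of_le_of_lt haN hN2)).1 ha
      have h2 : ((A ∩ Set.Icc 1 N).ncard : ℝ) ≤ ((U (k + 1)).card : ℝ) := by
        have := Set.ncard_le_ncard h1 (Finset.finite_toSet _)
        rw [Set.ncard_coe_finset] at this
        exact_mod_cast this
      refine h2.trans ?_
      have h3 : ∀ k, ((U k).card : ℝ) ≤ 1 + ∑ j ∈ range k, (2 : ℝ) ^ (K + j) *
          (3 * (1 / (st (K + j) + 2))) := by
        intro k
        induction k with
        | zero => rw [hU0]; simp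
        | succ k ih =>
          rw [hUs, sum_range_succ]
          have h4 : ((U k ∪ Bf k (U k)).card : ℝ) ≤ (U k).card + (Bf k (U k)).card := by
            exact_mod_cast card_union_le _ _
          have h5 := hB2 k (U k)
          push_cast at h5
          linarith
      exact h3 (k + 1)
  · rw [hA]
    exact ⟨0, by rw [hU0]; simp⟩
  · intro a ha
    rw [hA] at ha
    obtain ⟨k, hk⟩ := ha
    exact hUK k a hk
  · -- exponential sums
    intro r
    obtain ⟨c, hc⟩ : ∃ c : ℕ → ℝ, c = fun j => if r < st (K + j) then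
      1 / (((st (K + j) : ℕ) : ℝ) + 1) else 1 := ⟨_, rfl⟩
    have hblock : ∀ k, ∀ N ∈ Icc (2 ^ (K + k)) (2 * 2 ^ (K + k)),
        ‖∑ n ∈ Ico (2 ^ (K + k)) N, e (conv A (y r) n)‖ ≤ 2 ^ (K + k) * c k := by
      intro k N hN
      rw [mem_Icc] at hN
      rw [hc]
      by_cases hr : r < st (K + k)
      · have h1 := hB3 k (U k) r hr N (mem_Icc.2 hN)
        have h2 : ∑ n ∈ Ico (2 ^ (K + k)) N, e (conv A (y r) n) =
            ∑ n ∈ Ico (2 ^ (K + k)) N, e ((∑ a ∈ (U k).filter (· ≤ n), y r (n - a)) +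
              ∑ a ∈ (Bf k (U k)).filter (· ≤ n), y r (n - a)) := by
          refine sum_congr rfl fun n hn => ?_
          rw [mem_Ico] at hn
          rw [hconv r k n hn.1 (by omega)]
        rw [h2]
        simp only [if_pos hr]
        push_cast at h1
        linarith
      · simp only [if_neg hr, mul_one]
        refine (norm_sum_le _ _).trans ?_
        simp only [norm_e, sum_const, nsmul_eq_mul, mul_one, Nat.card_Ico]
        have h1 : N - 2 ^ (K + k) ≤ 2 ^ (K + k) := by omega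
        exact_mod_cast h1
    have hc0 : Tendsto c atTop (𝓝 0) := by
      have h0 : Tendsto (fun j : ℕ => st (K + j)) atTop atTop :=
        hst2.comp (tendsto_atTop_mono (fun j => Nat.le_add_left j K) tendsto_id)
      have h1 : Tendsto (fun j : ℕ => ((st (K + j) : ℕ) : ℝ) + 1) atTop atTop :=
        tendsto_atTop_add_const_right _ _ (tendsto_natCast_atTop_atTop.comp h0)
      have h2 : Tendsto (fun j : ℕ => 1 / (((st (K + j) : ℕ) : ℝ) + 1)) atTop (𝓝 0) := by
        simp only [one_div]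
        exact tendsto_inv_atTop_zero.comp h1
      refine h2.congr' ?_
      filter_upwards [h0.eventually (eventually_gt_atTop r)] with j hj
      rw [hc]
      simp only [if_pos hj]
    have hfull : ∀ k, ‖∑ n ∈ Ico (2 ^ K) (2 ^ (K + k)), e (conv A (y r) n)‖ ≤
        ∑ j ∈ range k, (2 : ℝ) ^ (K + j) * c j := by
      intro k
      induction k with
      | zero => simp
      | succ k ih =>
        have h2 : 2 ^ (K + (k + 1)) = 2 * 2 ^ (K + k) := by ring
        have h3 : 2 ^ K ≤ 2 ^ (K + k) := Nat.pow_le_pow_right (by norm_num) (by omega)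
        rw [h2, ← sum_Ico_consecutive _ h3 (by omega : 2 ^ (K + k) ≤ 2 * 2 ^ (K + k)),
          sum_range_succ]
        refine (norm_add_le _ _).trans (add_le_add ih ?_)
        exact hblock k _ (mem_Icc.2 ⟨by omega, le_rfl⟩)
    refine dyadic K c hc0 (fun N => ‖∑ n ∈ Icc 1 N, e (conv A (y r) n)‖) (fun N => norm_nonneg _)
      (2 ^ K) ?_
    intro k N hN1 hN2
    have h3 : 2 ^ K ≤ 2 ^ (K + k) := Nat.pow_le_pow_right (by norm_num) (by omega)
    have h1 : (Icc 1 N : Finset ℕ) = Ico 1 (N + 1) := by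
      ext a
      rw [mem_Icc, mem_Ico]
      omega
    have h4 : 1 ≤ 2 ^ K := Nat.one_le_two_pow
    have h5 : 2 ^ (K + k + 1) = 2 * 2 ^ (K + k) := by ring
    rw [h5] at hN2
    rw [h1, ← sum_Ico_consecutive _ h4 (by omega : 2 ^ K ≤ N + 1),
      ← sum_Ico_consecutive _ h3 (by omega : 2 ^ (K + k) ≤ N + 1), sum_range_succ]
    refine (norm_add_le _ _).trans (add_le_add ?_ ((norm_add_le _ _).trans
      (add_le_add (hfull k) (hblock k _ (mem_Icc.2 ⟨by omega, by omega⟩)))))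
    refine (norm_sum_le _ _).trans ?_
    simp only [norm_e, sum_const, nsmul_eq_mul, mul_one, Nat.card_Ico]
    have h6 : 2 ^ K - 1 ≤ 2 ^ K := by omega
    exact_mod_cast h6

end Pool.Agent.N915.PV
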