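import Pool.Agent.N915.PV.Stm

/-!
# Project PV, part BLK (helper50): random digits in one block
-/

set_option autoImplicit false

namespace Pool.Agent.N915.PV

open Finset Filter Topology

namespace BLK

/-- the weight of a set -/
noncomputable def W (p : ℝ) (I B : Finset ℕ) : ℝ := (∏ _a ∈ B, p) * ∏ _a ∈ I \ B, (1 - p)

lemma W_nonneg {p : ℝ} (h0 : 0 ≤ p) (h1 : p ≤ 1) (I B : Finset ℕ) : 0 ≤ W p I B :=
  mul_nonneg (prod_nonneg fun _ _ => h0) (prod_nonneg fun _ _ => by linarith)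

lemma W_prod (p : ℝ) (I : Finset ℕ) (c : ℕ → ℂ) :
    ∑ B ∈ I.powerset, (W p I B : ℂ) * ∏ a ∈ B, c a = ∏ a ∈ I, ((p : ℂ) * c a + (1 - p)) := by
  rw [Finset.prod_add]
  refine sum_congr rfl fun B _ => ?_
  unfold W
  push_cast
  rw [prod_mul_distrib]
  ring

lemma W_prodR (p : ℝ) (I : Finset ℕ) (c : ℕ → ℝ) :
    ∑ B ∈ I.powerset, W p I B * ∏ a ∈ B, c a = ∏ a ∈ I, (p * c a + (1 - p)) := by
  rw [Finset.prod_add]
  refine sum_congr rfl fun B _ => ?_
  unfold W
  rw [prod_mul_distrib]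
  ring

lemma W_sum (p : ℝ) (I : Finset ℕ) : ∑ B ∈ I.powerset, W p I B = 1 := by
  have h := W_prodR p I (fun _ => 1)
  simpa using h

lemma W_mem (p : ℝ) (I : Finset ℕ) {a : ℕ} (ha : a ∈ I) :
    ∑ B ∈ I.powerset, W p I B * (if a ∈ B then 1 else 0) = p := by
  have h := W_prodR p I (fun b => if b = a then 0 else 1)
  have h1 : ∏ b ∈ I, (p * (if b = a then (0 : ℝ) else 1) + (1 - p)) = 1 - p := by
    rw [prod_eq_single_of_mem a ha]
    · simp
    · intro b _ hb
      rw [if_neg hb]; ring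
  have h2 : ∀ B : Finset ℕ, ∏ b ∈ B, (if b = a then (0 : ℝ) else 1) =
      1 - (if a ∈ B then 1 else 0) := by
    intro B
    by_cases hB : a ∈ B
    · rw [if_pos hB, prod_eq_zero hB (by simp)]; ring
    · rw [if_neg hB, prod_eq_one]
      · ring
      · intro b hb
        rw [if_neg (fun h : b = a => hB (h ▸ hb))]
  rw [h1] at h
  simp only [h2, mul_sub, mul_one] at h
  rw [sum_sub_distrib, W_sum] at h
  linarith

lemma W_card (p : ℝ) (I : Finset ℕ) :
    ∑ B ∈ I.powerset, W p I B * (B.card : ℝ) = p * I.card := by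
  have h1 : ∀ B ∈ I.powerset, W p I B * (B.card : ℝ) =
      ∑ a ∈ I, W p I B * (if a ∈ B then 1 else 0) := by
    intro B hB
    rw [mem_powerset] at hB
    rw [← mul_sum]
    congr 1
    rw [← sum_filter]
    have : I.filter (fun a => a ∈ B) = B := by
      ext a
      rw [mem_filter]
      exact ⟨fun h => h.2, fun h => ⟨hB h, h⟩⟩
    rw [this]
    simp
  rw [sum_congr rfl h1, sum_comm, sum_congr rfl fun a ha => W_mem p I ha, sum_const,
    nsmul_eq_mul, mul_comm]

lemma norm_e (x : ℝ) : ‖e x‖ = 1 := by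
  unfold e
  rw [show (2 * (Real.pi : ℂ) * x * Complex.I) = ((2 * Real.pi * x : ℝ) : ℂ) * Complex.I by
    push_cast; ring]
  exact Complex.norm_exp_ofReal_mul_I _

lemma e_add (x y : ℝ) : e (x + y) = e x * e y := by
  unfold e
  rw [← Complex.exp_add]
  congr 1
  push_cast
  ring

lemma e_zero : e 0 = 1 := by
  unfold e
  simp

lemma e_sum (B : Finset ℕ) (f : ℕ → ℝ) : e (∑ a ∈ B, f a) = ∏ a ∈ B, e (f a) := by
  induction B using Finset.cons_induction with
  | empty => simp [e_zero]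
  | cons a B ha ih => rw [sum_cons, prod_cons, e_add, ih]

lemma conj_e (x : ℝ) : (starRingEnd ℂ) (e x) = e (-x) := by
  unfold e
  rw [← Complex.exp_conj]
  congr 1
  rw [show (2 * (Real.pi : ℂ) * x * Complex.I) = ((2 * Real.pi * x : ℝ) : ℂ) * Complex.I by
    push_cast; ring, map_mul, Complex.conj_ofReal, Complex.conj_I]
  push_cast
  ring

lemma e_mul_conj (x y : ℝ) : e x * (starRingEnd ℂ) (e y) = e (x - y) := by
  rw [conj_e, ← e_add, sub_eq_add_neg]

lemma factor_le {p : ℝ} (h0 : 0 ≤ p) (h1 : p ≤ 1 / 2) (t : ℝ) :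
    ‖(p : ℂ) * e t + (1 - p)‖ ≤ Real.exp (-(p * nrm t ^ 2)) := by
  set s := t - round t with hs
  have hs1 : |s| ≤ 1 / 2 := abs_sub_round t
  have hn : nrm t ^ 2 = s ^ 2 := by
    unfold nrm
    rw [← hs, sq_abs]
  have hcos : Real.cos (2 * Real.pi * t) ≤ 1 - 8 * s ^ 2 := by
    have e1 : Real.cos (2 * Real.pi * t) = Real.cos (2 * Real.pi * s) := by
      have := Real.cos_sub_int_mul_two_pi (2 * Real.pi * t) (round t)
      rw [← this]
      congr 1
      rw [hs]
      ring
    rw [e1]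
    have h2 : |2 * Real.pi * s| ≤ Real.pi := by
      rw [abs_mul, abs_of_pos (by positivity)]
      have := Real.pi_pos
      nlinarith
    have h3 := Real.cos_le_one_sub_mul_cos_sq h2
    have e2 : 2 / Real.pi ^ 2 * (2 * Real.pi * s) ^ 2 = 8 * s ^ 2 := by
      have := Real.pi_pos.ne'
      field_simp
      ring
    rw [e2] at h3
    exact h3
  have he : e t = Complex.cos ((2 * Real.pi * t : ℝ) : ℂ) +
      Complex.sin ((2 * Real.pi * t : ℝ) : ℂ) * Complex.I := by
    unfold e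
    rw [← Complex.exp_mul_I]
    congr 1
    push_cast
    ring
  have hnsq : ‖(p : ℂ) * e t + (1 - p)‖ ^ 2 =
      1 - 2 * p * (1 - p) * (1 - Real.cos (2 * Real.pi * t)) := by
    rw [← Complex.normSq_eq_norm_sq, he, ← Complex.ofReal_cos, ← Complex.ofReal_sin,
      Complex.normSq_apply]
    have h4 := Real.sin_sq_add_cos_sq (2 * Real.pi * t)
    simp only [Complex.add_re, Complex.mul_re, Complex.ofReal_re, Complex.ofReal_im,
      Complex.I_re, Complex.I_im, Complex.add_im, Complex.mul_im, Complex.sub_re,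
      Complex.sub_im, Complex.one_re, Complex.one_im]
    linear_combination p ^ 2 * h4
  have h5 : ‖(p : ℂ) * e t + (1 - p)‖ ^ 2 ≤ Real.exp (-(p * nrm t ^ 2)) ^ 2 := by
    rw [hnsq, hn, ← Real.exp_nat_mul]
    have h6 := Real.add_one_le_exp (((2 : ℕ) : ℝ) * -(p * s ^ 2))
    refine le_trans ?_ h6
    push_cast
    have h7 : 0 ≤ p * (1 - p) := by nlinarith
    have h8 : 8 * s ^ 2 ≤ 1 - Real.cos (2 * Real.pi * t) := by linarith
    have h9 : p * (1 - p) * (8 * s ^ 2) ≤ p * (1 - p) * (1 - Real.cos (2 * Real.pi * t)) :=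
      mul_le_mul_of_nonneg_left h8 h7
    have h10 : 0 ≤ p * s ^ 2 := by positivity
    nlinarith
  exact le_of_sq_le_sq h5 (Real.exp_pos _).le

/-- the phases -/
noncomputable def X (y z : ℕ → ℝ) (n : ℕ) (B : Finset ℕ) : ℝ :=
  z n + ∑ a ∈ B.filter (· ≤ n), y (n - a)

/-- the correlations -/
noncomputable def E (p : ℝ) (I : Finset ℕ) (y z : ℕ → ℝ) (n m : ℕ) : ℂ :=
  ∑ B ∈ I.powerset, (W p I B : ℂ) * (e (X y z n B) * (starRingEnd ℂ) (e (X y z m B)))

/-- the bound for the correlations -/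
noncomputable def hh (p : ℝ) (y : ℕ → ℝ) (k : ℕ) : ℝ :=
  Real.exp (-(p * ∑ j ∈ range k, nrm (y j) ^ 2))

lemma E_le {p : ℝ} (h0 : 0 ≤ p) (h1 : p ≤ 1 / 2) (M : ℕ) (y z : ℕ → ℝ) {n m : ℕ} (hm : M ≤ m)
    (hmn : m ≤ n) (hn : n < 2 * M) : ‖E p (Ico M (2 * M)) y z n m‖ ≤ hh p y (n - m) := by
  set I := Ico M (2 * M) with hI
  set d : ℕ → ℝ := fun a => (if a ≤ n then y (n - a) else 0) - (if a ≤ m then y (m - a) else 0)
    with hd
  have e1 : ∀ B, e (X y z n B) * (starRingEnd ℂ) (e (X y z m B)) =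
      e (z n - z m) * ∏ a ∈ B, e (d a) := by
    intro B
    rw [e_mul_conj, ← e_sum, ← e_add]
    congr 1
    unfold X
    rw [sum_filter, sum_filter, hd, sum_sub_distrib]
    ring
  have e2 : E p I y z n m = e (z n - z m) * ∏ a ∈ I, ((p : ℂ) * e (d a) + (1 - p)) := by
    unfold E
    rw [← W_prod, mul_sum]
    refine sum_congr rfl fun B _ => ?_
    rw [e1]
    ring
  rw [e2, norm_mul, norm_e, one_mul, norm_prod]
  have h2 : ∏ a ∈ I, ‖(p : ℂ) * e (d a) + (1 - p)‖ ≤
      ∏ a ∈ I, (if a ∈ Ioc m n then Real.exp (-(p * nrm (y (n - a)) ^ 2)) else 1) := by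
    refine prod_le_prod (fun _ _ => norm_nonneg _) fun a _ => ?_
    split_ifs with ha
    · rw [mem_Ioc] at ha
      have : d a = y (n - a) := by
        simp only [hd]
        rw [if_pos ha.2, if_neg (by omega), sub_zero]
      rw [this]
      exact factor_le h0 h1 _
    · refine (factor_le h0 h1 _).trans ?_
      rw [Real.exp_le_one_iff]
      have : 0 ≤ p * nrm (d a) ^ 2 := by positivity
      linarith
  refine h2.trans (le_of_eq ?_)
  rw [← prod_filter]
  have h3 : I.filter (fun a => a ∈ Ioc m n) = Ioc m n := by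
    ext a
    rw [mem_filter, mem_Ioc, hI, mem_Ico]
    constructor
    · exact fun h => h.2
    · exact fun h => ⟨⟨by omega, by omega⟩, h⟩
  rw [h3, ← Real.exp_sum]
  unfold hh
  congr 1
  rw [sum_neg_distrib, ← mul_sum]
  congr 2
  refine sum_nbij' (fun a => n - a) (fun j => n - j) ?_ ?_ ?_ ?_ ?_
  · intro a ha
    rw [mem_Ioc] at ha
    rw [mem_range]
    omega
  · intro j hj
    rw [mem_range] at hj
    rw [mem_Ioc]
    omega
  · intro a ha
    rw [mem_Ioc] at ha
    change n - (n - a) = a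
    omega
  · intro j hj
    rw [mem_range] at hj
    change n - (n - j) = j
    omega
  · intro a _
    rfl

lemma E_symm (p : ℝ) (I : Finset ℕ) (y z : ℕ → ℝ) (n m : ℕ) :
    ‖E p I y z n m‖ = ‖E p I y z m n‖ := by
  have h : (starRingEnd ℂ) (E p I y z n m) = E p I y z m n := by
    unfold E
    rw [map_sum]
    refine sum_congr rfl fun B _ => ?_
    rw [map_mul, map_mul, Complex.conj_conj, Complex.conj_ofReal]
    ring
  rw [← h, RCLike.norm_conj]

lemma second_moment {p κ : ℝ} (h0 : 0 ≤ p) (h1 : p ≤ 1 / 2) (M : ℕ) (y z : ℕ → ℝ)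
    (hκ : ∑ n ∈ range M, ∑ m ∈ range n, hh p y (n - m) ≤ κ * (M : ℝ) ^ 2) {T : ℕ} (hT : T ≤ M) :
    ∑ B ∈ (Ico M (2 * M)).powerset, W p (Ico M (2 * M)) B *
      ‖∑ n ∈ Ico M (M + T), e (X y z n B)‖ ^ 2 ≤ M + 2 * (κ * (M : ℝ) ^ 2) := by
  set I := Ico M (2 * M) with hI
  have e1 : ((∑ B ∈ I.powerset, W p I B * ‖∑ n ∈ Ico M (M + T), e (X y z n B)‖ ^ 2 : ℝ) : ℂ) =
      ∑ n ∈ Ico M (M + T), ∑ m ∈ Ico M (M + T), E p I y z n m := by
    unfold E
    have e2 : ∀ B, ((‖∑ n ∈ Ico M (M + T), e (X y z n B)‖ ^ 2 : ℝ) : ℂ) =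
        ∑ n ∈ Ico M (M + T), ∑ m ∈ Ico M (M + T),
          e (X y z n B) * (starRingEnd ℂ) (e (X y z m B)) := by
      intro B
      rw [← sum_mul_sum, ← map_sum, Complex.mul_conj, Complex.normSq_eq_norm_sq]
    push_cast
    have e3 : ∀ B ∈ I.powerset, (W p I B : ℂ) *
        (‖∑ n ∈ Ico M (M + T), e (X y z n B)‖ : ℂ) ^ 2 =
        ∑ n ∈ Ico M (M + T), ∑ m ∈ Ico M (M + T),
          (W p I B : ℂ) * (e (X y z n B) * (starRingEnd ℂ) (e (X y z m B))) := by
      intro B _
      have := e2 B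
      push_cast at this
      rw [this, mul_sum]
      refine sum_congr rfl fun n _ => ?_
      rw [mul_sum]
    rw [sum_congr rfl e3, sum_comm]
    refine sum_congr rfl fun n _ => ?_
    rw [sum_comm]
  have h2 : ∑ B ∈ I.powerset, W p I B * ‖∑ n ∈ Ico M (M + T), e (X y z n B)‖ ^ 2 ≤
      ∑ n ∈ Ico M (M + T), ∑ m ∈ Ico M (M + T), ‖E p I y z n m‖ := by
    have h3 : ∑ B ∈ I.powerset, W p I B * ‖∑ n ∈ Ico M (M + T), e (X y z n B)‖ ^ 2 ≤
        ‖((∑ B ∈ I.powerset, W p I B * ‖∑ n ∈ Ico M (M + T), e (X y z n B)‖ ^ 2 : ℝ) : ℂ)‖ := by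
      rw [Complex.norm_real]
      exact Real.le_norm_self _
    rw [e1] at h3
    refine h3.trans ((norm_sum_le _ _).trans ?_)
    exact sum_le_sum fun n _ => norm_sum_le _ _
  refine h2.trans ?_
  -- the bound of each term
  set g : ℕ → ℕ → ℝ := fun n m => (if m < n then hh p y (n - m) else 0) +
    (if n < m then hh p y (m - n) else 0) + (if n = m then 1 else 0) with hg
  have hhpos : ∀ k, 0 < hh p y k := fun k => Real.exp_pos _
  have hg0 : ∀ n m, 0 ≤ g n m := by
    intro n m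
    simp only [hg]
    have := hhpos (n - m)
    have := hhpos (m - n)
    split_ifs <;> positivity
  have hEg : ∀ n ∈ range M, ∀ m ∈ range M, ‖E p I y z (M + n) (M + m)‖ ≤ g n m := by
    intro n hn m hm
    rw [mem_range] at hn hm
    simp only [hg]
    rcases lt_trichotomy m n with h | h | h
    · rw [if_pos h, if_neg (by omega), if_neg (by omega), add_zero, add_zero]
      have := E_le h0 h1 M y z (n := M + n) (m := M + m) (by omega) (by omega) (by omega)
      have e4 : M + n - (M + m) = n - m := by omega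
      rw [e4] at this
      exact this
    · subst h
      rw [if_neg (lt_irrefl _), if_pos rfl]
      have := E_le h0 h1 M y z (n := M + m) (m := M + m) (by omega) le_rfl (by omega)
      rw [Nat.sub_self] at this
      have e5 : hh p y 0 = 1 := by unfold hh; simp
      rw [e5] at this
      simpa using this
    · rw [if_neg (by omega), if_pos h, if_neg (by omega), add_zero, zero_add, E_symm]
      have := E_le h0 h1 M y z (n := M + m) (m := M + n) (by omega) (by omega) (by omega)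
      have e4 : M + m - (M + n) = m - n := by omega
      rw [e4] at this
      exact this
  have h3 : ∑ n ∈ Ico M (M + T), ∑ m ∈ Ico M (M + T), ‖E p I y z n m‖ ≤
      ∑ n ∈ range M, ∑ m ∈ range M, g n m := by
    rw [sum_Ico_eq_sum_range]
    have e5 : M + T - M = T := by omega
    rw [e5]
    have h4 : range T ⊆ range M := range_subset_range.2 hT
    calc ∑ n ∈ range T, ∑ m ∈ Ico M (M + T), ‖E p I y z (M + n) m‖ ≤
        ∑ n ∈ range T, ∑ m ∈ range M, g n m := by
          refine sum_le_sum fun n hn => ?_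
          rw [sum_Ico_eq_sum_range, e5]
          refine (sum_le_sum fun m hm => hEg n (h4 hn) m (h4 hm)).trans ?_
          exact sum_le_sum_of_subset_of_nonneg h4 fun m _ _ => hg0 n m
      _ ≤ _ := sum_le_sum_of_subset_of_nonneg h4 fun n _ _ => sum_nonneg fun m _ => hg0 n m
  refine h3.trans ?_
  -- the sum
  have s1 : ∑ n ∈ range M, ∑ m ∈ range M, (if m < n then hh p y (n - m) else 0) =
      ∑ n ∈ range M, ∑ m ∈ range n, hh p y (n - m) := by
    refine sum_congr rfl fun n hn => ?_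
    rw [mem_range] at hn
    rw [← sum_filter]
    congr 1
    ext m
    rw [mem_filter, mem_range, mem_range]
    constructor
    · exact fun h => h.2
    · exact fun h => ⟨by omega, h⟩
  have s2 : ∑ n ∈ range M, ∑ m ∈ range M, (if n < m then hh p y (m - n) else 0) =
      ∑ n ∈ range M, ∑ m ∈ range n, hh p y (n - m) := by
    rw [sum_comm, s1]
  have s3 : ∑ n ∈ range M, ∑ m ∈ range M, (if n = m then (1 : ℝ) else 0) = M := by
    have : ∀ n ∈ range M, ∑ m ∈ range M, (if n = m then (1 : ℝ) else 0) = 1 := by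
      intro n hn
      rw [sum_ite_eq, if_pos hn]
    rw [sum_congr rfl this]
    simp
  simp only [hg, sum_add_distrib]
  rw [s1, s2, s3]
  linarith

end BLK

open BLK in
theorem blk : S_BLK := by
  classical
  intro M R p κ η y z hM hp hp2 hη hη1 hκ hH hR
  have hMr : (1 : ℝ) ≤ M := by exact_mod_cast hM
  have hM0 : (0 : ℝ) < M := by linarith
  rcases Nat.eq_zero_or_pos R with hR0 | hR0
  · subst hR0
    exact ⟨∅, empty_subset _, by simp; positivity, fun r => r.elim0⟩
  have hR1 : (1 : ℝ) ≤ R := by exact_mod_cast hR0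
  -- size of `M`
  have hη3 : η ^ 3 ≤ η := by
    have : η ^ 3 = η * η ^ 2 := by ring
    rw [this]
    exact mul_le_of_le_one_right hη.le (pow_le_one₀ hη.le hη1)
  have hbig : 1000 ≤ η * M := by
    have h1 : 1000 * (1 / (M : ℝ)) ≤ 1000 * (R : ℝ) * (1 / M + κ) := by
      have h2 : 0 < 1 / (M : ℝ) := by positivity
      nlinarith
    have h2 : 1000 * (1 / (M : ℝ)) ≤ η := h1.trans (hR.trans hη3)
    rw [mul_one_div, div_le_iff₀ hM0] at h2
    exact h2
  set L := ⌊η * M / 2⌋₊ with hL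
  have hL1 : (L : ℝ) ≤ η * M / 2 := Nat.floor_le (by positivity)
  have hL2 : η * M / 2 < L + 1 := Nat.lt_floor_add_one _
  have hL3 : 49 / 100 * (η * M) ≤ L := by linarith
  have hL0 : 0 < L := by
    have : (0 : ℝ) < L := by linarith
    exact_mod_cast this
  have hLr : (0 : ℝ) < L := by exact_mod_cast hL0
  set K := M / L with hK
  have hK1 : ((K + 1 : ℕ) : ℝ) ≤ 4 / η := by
    have h1 : (K : ℝ) ≤ M / L := Nat.cast_div_le
    have h2 : (M : ℝ) / L ≤ 3 / η := by
      rw [div_le_div_iff₀ hLr hη]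
      nlinarith
    have h3 : (1 : ℝ) ≤ 1 / η := by
      rw [le_div_iff₀ hη]; linarith
    push_cast
    have h4 : 4 / η = 3 / η + 1 / η := by ring
    rw [h4]
    linarith
  set I := Ico M (2 * M) with hI
  have hIc : I.card = M := by rw [hI, Nat.card_Ico]; omega
  set Φ : Finset ℕ → ℝ := fun B => (B.card : ℝ) * (1 / (3 * p * M)) +
    ∑ r : Fin R, ∑ i ∈ range (K + 1),
      ‖∑ n ∈ Ico M (M + min (i * L) M), e (X (y r) (z r) n B)‖ ^ 2 * (4 / (η ^ 2 * M ^ 2))
    with hΦ
  have hW0 : ∀ B, 0 ≤ W p I B := fun B => W_nonneg hp.le (by linarith) I B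
  have hE : ∑ B ∈ I.powerset, W p I B * Φ B < 1 := by
    have h1 : ∑ B ∈ I.powerset, W p I B * Φ B =
        (∑ B ∈ I.powerset, W p I B * (B.card : ℝ)) * (1 / (3 * p * M)) +
        ∑ r : Fin R, ∑ i ∈ range (K + 1), (∑ B ∈ I.powerset, W p I B *
          ‖∑ n ∈ Ico M (M + min (i * L) M), e (X (y r) (z r) n B)‖ ^ 2) *
            (4 / (η ^ 2 * M ^ 2)) := by
      simp only [hΦ, mul_add, sum_add_distrib]
      congr 1
      · rw [sum_mul]
        exact sum_congr rfl fun B _ => by ring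
      · have h2 : ∀ B ∈ I.powerset, W p I B * ∑ r : Fin R, ∑ i ∈ range (K + 1),
            ‖∑ n ∈ Ico M (M + min (i * L) M), e (X (y r) (z r) n B)‖ ^ 2 *
              (4 / (η ^ 2 * M ^ 2)) = ∑ r : Fin R, ∑ i ∈ range (K + 1), W p I B *
            ‖∑ n ∈ Ico M (M + min (i * L) M), e (X (y r) (z r) n B)‖ ^ 2 *
              (4 / (η ^ 2 * M ^ 2)) := by
          intro B _
          rw [mul_sum]
          refine sum_congr rfl fun r _ => ?_
          rw [mul_sum]
          exact sum_congr rfl fun i _ => by ring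
        rw [sum_congr rfl h2, sum_comm]
        refine sum_congr rfl fun r _ => ?_
        rw [sum_comm]
        refine sum_congr rfl fun i _ => ?_
        rw [sum_mul]
    rw [h1, W_card, hIc]
    have h2 : p * M * (1 / (3 * p * M)) = 1 / 3 := by
      field_simp
    rw [h2]
    have h3 : ∀ r : Fin R, ∀ i ∈ range (K + 1), (∑ B ∈ I.powerset, W p I B *
          ‖∑ n ∈ Ico M (M + min (i * L) M), e (X (y r) (z r) n B)‖ ^ 2) *
            (4 / (η ^ 2 * M ^ 2)) ≤ (M + 2 * (κ * (M : ℝ) ^ 2)) * (4 / (η ^ 2 * M ^ 2)) := by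
      intro r i _
      refine mul_le_mul_of_nonneg_right ?_ (by positivity)
      exact second_moment hp.le hp2 M (y r) (z r) (hH r) (min_le_right _ _)
    have h4 : ∑ r : Fin R, ∑ i ∈ range (K + 1), (∑ B ∈ I.powerset, W p I B *
          ‖∑ n ∈ Ico M (M + min (i * L) M), e (X (y r) (z r) n B)‖ ^ 2) *
            (4 / (η ^ 2 * M ^ 2)) ≤
        (R : ℝ) * (((K + 1 : ℕ) : ℝ) * ((M + 2 * (κ * (M : ℝ) ^ 2)) * (4 / (η ^ 2 * M ^ 2)))) := by
      calc _ ≤ ∑ r : Fin R, ∑ i ∈ range (K + 1),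
            (M + 2 * (κ * (M : ℝ) ^ 2)) * (4 / (η ^ 2 * M ^ 2)) :=
            sum_le_sum fun r _ => sum_le_sum fun i hi => h3 r i hi
        _ = _ := by
            rw [sum_const, sum_const, card_range, card_univ, Fintype.card_fin, nsmul_eq_mul,
              nsmul_eq_mul]
    have h5 : (M + 2 * (κ * (M : ℝ) ^ 2)) * (4 / (η ^ 2 * M ^ 2)) ≤
        8 / η ^ 2 * (1 / M + κ) := by
      have e5 : (M + 2 * (κ * (M : ℝ) ^ 2)) * (4 / (η ^ 2 * M ^ 2)) =
          4 / η ^ 2 * (1 / M + 2 * κ) := by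
        field_simp
      have e6 : 8 / η ^ 2 * (1 / M + κ) = 4 / η ^ 2 * (2 / M + 2 * κ) := by
        field_simp
        ring
      rw [e5, e6]
      apply mul_le_mul_of_nonneg_left _ (by positivity)
      have : 1 / (M : ℝ) ≤ 2 / M := div_le_div_of_nonneg_right (by norm_num) hM0.le
      linarith
    have h6 : (R : ℝ) * (((K + 1 : ℕ) : ℝ) * ((M + 2 * (κ * (M : ℝ) ^ 2)) *
        (4 / (η ^ 2 * M ^ 2)))) ≤ 32 / 1000 := by
      calc _ ≤ (R : ℝ) * (4 / η * (8 / η ^ 2 * (1 / M + κ))) := by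
            apply mul_le_mul_of_nonneg_left _ (by positivity)
            apply mul_le_mul hK1 h5 (by positivity) (by positivity)
        _ = 32 / 1000 * (1000 * (R : ℝ) * (1 / M + κ) / η ^ 3) := by
            field_simp
            ring
        _ ≤ 32 / 1000 * 1 := by
            apply mul_le_mul_of_nonneg_left _ (by norm_num)
            rw [div_le_one (by positivity)]
            exact hR
        _ = 32 / 1000 := by ring
    linarith
  -- selection
  obtain ⟨B, hB, hB1⟩ : ∃ B ∈ I.powerset, Φ B < 1 := by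
    by_contra hcon
    push Not at hcon
    have h1 : ∑ B ∈ I.powerset, W p I B ≤ ∑ B ∈ I.powerset, W p I B * Φ B :=
      sum_le_sum fun B hB => le_mul_of_one_le_right (hW0 B) (hcon B hB)
    rw [W_sum] at h1
    linarith
  have hterm0 : ∀ r : Fin R, ∀ i, 0 ≤
      ‖∑ n ∈ Ico M (M + min (i * L) M), e (X (y r) (z r) n B)‖ ^ 2 * (4 / (η ^ 2 * M ^ 2)) :=
    fun r i => by positivity
  have hcard0 : 0 ≤ (B.card : ℝ) * (1 / (3 * p * M)) := by positivity
  have hsum0 : 0 ≤ ∑ r : Fin R, ∑ i ∈ range (K + 1),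
      ‖∑ n ∈ Ico M (M + min (i * L) M), e (X (y r) (z r) n B)‖ ^ 2 * (4 / (η ^ 2 * M ^ 2)) :=
    sum_nonneg fun r _ => sum_nonneg fun i _ => hterm0 r i
  simp only [hΦ] at hB1
  refine ⟨B, mem_powerset.1 hB, ?_, ?_⟩
  · have h1 : (B.card : ℝ) * (1 / (3 * p * M)) < 1 := by linarith
    rw [mul_one_div, div_lt_one (by positivity)] at h1
    exact h1.le
  · intro r N hN
    rw [mem_Icc] at hN
    set i := (N - M) / L with hi
    have hi1 : i * L ≤ N - M := Nat.div_mul_le_self _ _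
    have hi2 : N - M < i * L + L := by
      have := Nat.lt_div_mul_add (a := N - M) hL0
      rw [← hi] at this
      exact this
    have hiK : i ∈ range (K + 1) := by
      rw [mem_range]
      have : i ≤ K := Nat.div_le_div_right (by omega)
      omega
    have hmin : min (i * L) M = i * L := min_eq_left (by omega)
    have h1 : ‖∑ n ∈ Ico M (M + min (i * L) M), e (X (y r) (z r) n B)‖ ^ 2 *
        (4 / (η ^ 2 * M ^ 2)) < 1 := by
      have h2 : ‖∑ n ∈ Ico M (M + min (i * L) M), e (X (y r) (z r) n B)‖ ^ 2 *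
          (4 / (η ^ 2 * M ^ 2)) ≤ ∑ i ∈ range (K + 1),
          ‖∑ n ∈ Ico M (M + min (i * L) M), e (X (y r) (z r) n B)‖ ^ 2 *
            (4 / (η ^ 2 * M ^ 2)) :=
        single_le_sum (f := fun i => ‖∑ n ∈ Ico M (M + min (i * L) M),
          e (X (y r) (z r) n B)‖ ^ 2 * (4 / (η ^ 2 * M ^ 2))) (fun i _ => hterm0 r i) hiK
      have h3 := single_le_sum (s := univ) (f := fun r : Fin R => ∑ i ∈ range (K + 1),
          ‖∑ n ∈ Ico M (M + min (i * L) M), e (X (y r) (z r) n B)‖ ^ 2 *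
            (4 / (η ^ 2 * M ^ 2))) (fun r _ => sum_nonneg fun i _ => hterm0 r i) (mem_univ r)
      have h4 := h2.trans h3
      linarith
    rw [hmin] at h1
    have h2 : ‖∑ n ∈ Ico M (M + i * L), e (X (y r) (z r) n B)‖ ≤ η * M / 2 := by
      have h3 : ‖∑ n ∈ Ico M (M + i * L), e (X (y r) (z r) n B)‖ ^ 2 ≤ (η * M / 2) ^ 2 := by
        rw [mul_div_assoc', div_lt_one (by positivity)] at h1
        nlinarith
      exact le_of_sq_le_sq h3 (by positivity)
    have h3 : ∑ n ∈ Ico M N, e (X (y r) (z r) n B) =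
        ∑ n ∈ Ico M (M + i * L), e (X (y r) (z r) n B) +
          ∑ n ∈ Ico (M + i * L) N, e (X (y r) (z r) n B) :=
      (sum_Ico_consecutive _ (by omega) (by omega)).symm
    have h4 : ‖∑ n ∈ Ico (M + i * L) N, e (X (y r) (z r) n B)‖ ≤ L := by
      refine (norm_sum_le _ _).trans ?_
      simp only [norm_e, sum_const, Nat.card_Ico, nsmul_eq_mul, mul_one]
      have : N - (M + i * L) ≤ L := by omega
      exact_mod_cast this
    change ‖∑ n ∈ Ico M N, e (X (y r) (z r) n B)‖ ≤ η * M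
    rw [h3]
    refine (norm_add_le _ _).trans ?_
    linarith

end Pool.Agent.N915.PV
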