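import Pool.Agent.N915.PV.Stm

/-!
# PV-CV (project PV, helper915): digits of density zero in a Pisot base

Written by helper216.
-/

set_option autoImplicit false

namespace Pool.Agent.N915.PV

open Finset Filter Topology

namespace CV

lemma nrm_nonneg (x : ℝ) : 0 ≤ nrm x := abs_nonneg _

lemma nrm_zero : nrm 0 = 0 := by
  unfold nrm
  simp

lemma nrm_add (x y : ℝ) : nrm (x + y) ≤ nrm x + nrm y := by
  unfold nrm
  have h1 := round_le (x + y) (round x + round y)
  have h2 : x + y - ((round x + round y : ℤ) : ℝ) = (x - round x) + (y - round y) := by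
    push_cast
    ring
  rw [h2] at h1
  exact h1.trans (abs_add_le _ _)

lemma nrm_sum (s : Finset ℕ) (f : ℕ → ℝ) : nrm (∑ a ∈ s, f a) ≤ ∑ a ∈ s, nrm (f a) := by
  classical
  induction s using Finset.induction_on with
  | empty => simp [nrm_zero]
  | insert a s ha ih =>
    rw [Finset.sum_insert ha, Finset.sum_insert ha]
    exact (nrm_add _ _).trans (add_le_add le_rfl ih)

lemma geom_le {ρ : ℝ} (h0 : 0 ≤ ρ) (h1 : ρ < 1) (a N : ℕ) :
    ∑ n ∈ range (N + 1), (if a ≤ n then ρ ^ (n - a) else 0) ≤ (1 - ρ)⁻¹ := by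
  rw [← Finset.sum_filter]
  have h2 : ∑ n ∈ (range (N + 1)).filter (a ≤ ·), ρ ^ (n - a) ≤
      ∑ k ∈ range (N + 1), ρ ^ k := by
    have h3 : ∑ n ∈ (range (N + 1)).filter (a ≤ ·), ρ ^ (n - a) =
        ∑ k ∈ ((range (N + 1)).filter (a ≤ ·)).image (· - a), ρ ^ k := by
      rw [Finset.sum_image]
      intro x hx y hy hxy
      simp only [Finset.coe_filter, Finset.mem_range, Set.mem_ofPred_eq] at hx hy
      simp only at hxy
      omega
    rw [h3]
    refine Finset.sum_le_sum_of_subset_of_nonneg ?_ fun _ _ _ => pow_nonneg h0 _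
    intro k hk
    simp only [Finset.mem_image, Finset.mem_filter, Finset.mem_range] at hk ⊢
    obtain ⟨n, ⟨hn, hn'⟩, rfl⟩ := hk
    omega
  refine h2.trans ?_
  rw [← tsum_geometric_of_lt_one h0 h1]
  exact (summable_geometric_of_lt_one h0 h1).sum_le_tsum _ fun _ _ => pow_nonneg h0 _

end CV

open Classical in
theorem cv : S_CV := by
  intro A θ C ρ h0 h1 hC hA
  have hC0 : 0 ≤ C := by
    have := hC 0
    rw [pow_zero, pow_zero, mul_one] at this
    exact (CV.nrm_nonneg _).trans this
  have h1ρ : 0 < 1 - ρ := by linarith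
  have key : ∀ N : ℕ, ∑ n ∈ Icc 1 N, nrm (conv A (fun j => θ ^ j) n) ≤
      C * (1 - ρ)⁻¹ * (((A ∩ Set.Icc 1 N).ncard : ℝ) + 1) := by
    intro N
    have e1 : ∀ n, nrm (conv A (fun j => θ ^ j) n) ≤
        ∑ a ∈ (range (n + 1)).filter (· ∈ A), C * ρ ^ (n - a) := by
      intro n
      unfold conv
      refine (CV.nrm_sum _ _).trans (Finset.sum_le_sum fun a _ => hC _)
    have e2 : ∀ n ∈ Icc 1 N, nrm (conv A (fun j => θ ^ j) n) ≤
        ∑ a ∈ (range (N + 1)).filter (· ∈ A), (if a ≤ n then C * ρ ^ (n - a) else 0) := by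
      intro n hn
      rw [Finset.mem_Icc] at hn
      refine (e1 n).trans ?_
      rw [← Finset.sum_filter, Finset.filter_filter]
      refine Finset.sum_le_sum_of_subset_of_nonneg ?_ fun _ _ _ => by positivity
      intro a ha
      simp only [Finset.mem_filter, Finset.mem_range] at ha ⊢
      exact ⟨by omega, ha.2, by omega⟩
    calc ∑ n ∈ Icc 1 N, nrm (conv A (fun j => θ ^ j) n)
        ≤ ∑ n ∈ Icc 1 N, ∑ a ∈ (range (N + 1)).filter (· ∈ A),
          (if a ≤ n then C * ρ ^ (n - a) else 0) := Finset.sum_le_sum e2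
      _ ≤ ∑ n ∈ range (N + 1), ∑ a ∈ (range (N + 1)).filter (· ∈ A),
          (if a ≤ n then C * ρ ^ (n - a) else 0) := by
          refine Finset.sum_le_sum_of_subset_of_nonneg ?_ fun n _ _ => ?_
          · intro n hn
            rw [Finset.mem_Icc] at hn
            rw [Finset.mem_range]
            omega
          · refine Finset.sum_nonneg fun a _ => ?_
            split_ifs
            · positivity
            · exact le_rfl
      _ = ∑ a ∈ (range (N + 1)).filter (· ∈ A), ∑ n ∈ range (N + 1),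
          (if a ≤ n then C * ρ ^ (n - a) else 0) := Finset.sum_comm
      _ ≤ ∑ a ∈ (range (N + 1)).filter (· ∈ A), C * (1 - ρ)⁻¹ := by
          refine Finset.sum_le_sum fun a _ => ?_
          have e3 : ∑ n ∈ range (N + 1), (if a ≤ n then C * ρ ^ (n - a) else 0) =
              C * ∑ n ∈ range (N + 1), (if a ≤ n then ρ ^ (n - a) else 0) := by
            rw [Finset.mul_sum]
            refine Finset.sum_congr rfl fun n _ => ?_
            split_ifs <;> simp
          rw [e3]
          exact mul_le_mul_of_nonneg_left (CV.geom_le h0 h1 a N) hC0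
      _ = (((range (N + 1)).filter (· ∈ A)).card : ℝ) * (C * (1 - ρ)⁻¹) := by
          rw [Finset.sum_const, nsmul_eq_mul]
      _ ≤ (((A ∩ Set.Icc 1 N).ncard : ℝ) + 1) * (C * (1 - ρ)⁻¹) := by
          refine mul_le_mul_of_nonneg_right ?_ (by positivity)
          have e4 : ((range (N + 1)).filter (· ∈ A)).card ≤ (A ∩ Set.Icc 1 N).ncard + 1 := by
            rw [← Set.ncard_coe_finset]
            have e5 : (((range (N + 1)).filter (· ∈ A) : Finset ℕ) : Set ℕ) ⊆
                insert 0 (A ∩ Set.Icc 1 N) := by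
              intro a ha
              simp only [Finset.coe_filter, Finset.mem_range, Set.mem_ofPred_eq] at ha
              rcases Nat.eq_zero_or_pos a with h | h
              · exact Or.inl h
              · exact Or.inr ⟨ha.2, h, by omega⟩
            have hfin : (A ∩ Set.Icc 1 N).Finite := (Set.finite_Icc 1 N).inter_of_right A
            exact (Set.ncard_le_ncard e5 (hfin.insert 0)).trans (Set.ncard_insert_le _ _)
          exact_mod_cast e4
      _ = _ := by ring
  have hlim : Tendsto (fun N : ℕ => C * (1 - ρ)⁻¹ *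
      (((A ∩ Set.Icc 1 N).ncard : ℝ) / N + 1 / N)) atTop (𝓝 0) := by
    have h2 : Tendsto (fun N : ℕ => (1 : ℝ) / N) atTop (𝓝 0) := tendsto_one_div_atTop_nhds_zero_nat
    have h3 := (hA.add h2).const_mul (C * (1 - ρ)⁻¹)
    simpa using h3
  refine squeeze_zero (fun N => ?_) (fun N => ?_) hlim
  · exact div_nonneg (Finset.sum_nonneg fun n _ => CV.nrm_nonneg _) (Nat.cast_nonneg _)
  · have h2 := div_le_div_of_nonneg_right (key N) (Nat.cast_nonneg (α := ℝ) N)
    refine h2.trans (le_of_eq ?_)
    rw [← add_div]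
    ring

end Pool.Agent.N915.PV
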