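import Pool.Agent.N915.PV.Stm
import Pool.Agent.H904L2.Kronecker
import Pool.Agent.H340R2.LW

/-!
# Sparse digits and powers of real numbers: the proof
-/

set_option autoImplicit false

namespace Pool.Agent.N915.PV

open Finset Filter Topology Polynomial

lemma nrm_nonneg (x : ℝ) : 0 ≤ nrm x := abs_nonneg _

lemma nrm_le (x : ℝ) (m : ℤ) : nrm x ≤ |x - m| := round_le x m

lemma nrm_add (x y : ℝ) : nrm (x + y) ≤ nrm x + |y| := by
  refine (nrm_le (x + y) (round x)).trans ?_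
  have : x + y - (round x : ℝ) = (x - round x) + y := by ring
  rw [this]
  exact abs_add_le _ _

theorem core (hHK : S_HK) (hRAT : S_RAT) (k : ℕ) (θ l : Fin k → ℝ) (hinj : Function.Injective θ)
    (h1 : ∀ i, 1 < θ i) (hl : ∀ i, l i ≠ 0)
    (hs : Summable (fun n : ℕ => nrm (∑ i, l i * θ i ^ n) ^ 2)) :
    ∃ m : ℤ[X], m.Monic ∧ (∀ i, aeval (θ i) m = 0) ∧
      ∀ z : ℂ, aeval z m = 0 → (∃ i, z = (θ i : ℂ)) ∨ ‖z‖ < 1 := by
  set a : ℕ → ℤ := fun n => round (∑ i, l i * θ i ^ n) with ha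
  have hs' : Summable (fun n : ℕ => ((a n : ℝ) - ∑ i, l i * θ i ^ n) ^ 2) := by
    refine hs.congr fun n => ?_
    rw [nrm, sq_abs, ha]
    ring
  obtain ⟨N0, hN0⟩ := hHK k θ l a hs'
  have hk := H904L2.kronecker (fun n => (a n : ℂ)) N0 hN0
  exact hRAT k θ l a hinj h1 hl hs' hk

/-- not a Pisot number: one frequency -/
theorem notPisot (hHK : S_HK) (hRAT : S_RAT) (θ : ℝ) (h1 : 1 < θ) (hP : ¬ IsPisot θ) (l : ℝ) (hl : l ≠ 0) :
    ¬ Summable (fun n : ℕ => nrm (l * θ ^ n) ^ 2) := by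
  intro hs
  apply hP
  obtain ⟨m, hm, hr, hz⟩ := core hHK hRAT 1 (fun _ => θ) (fun _ => l) (fun i j _ => Subsingleton.elim i j)
    (fun _ => h1) (fun _ => hl) (by simpa using hs)
  have hr0 := hr 0
  refine ⟨h1, ⟨m, hm, ?_⟩, ?_⟩
  · rwa [aeval_def] at hr0
  · intro z hz0 hne
    have hdvd : minpoly ℚ θ ∣ m.map (algebraMap ℤ ℚ) := by
      apply minpoly.dvd
      rw [aeval_map_algebraMap]
      exact hr0
    have hz1 : aeval z m = 0 := by
      obtain ⟨q, hq⟩ := hdvd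
      have h2 : aeval z (m.map (algebraMap ℤ ℚ)) = 0 := by
        rw [hq, map_mul, hz0, zero_mul]
      rwa [aeval_map_algebraMap] at h2
    rcases hz z hz1 with ⟨i, hi⟩ | h
    · exact absurd hi hne
    · exact h

/-- several transcendental numbers -/
theorem notSum (hHK : S_HK) (hRAT : S_RAT) (k : ℕ) (θ l : Fin k → ℝ) (hinj : Function.Injective θ)
    (h1 : ∀ i, 1 < θ i) (ht : ∀ i, Transcendental ℚ (θ i)) (hl : ∃ i, l i ≠ 0) :
    ¬ Summable (fun n : ℕ => nrm (∑ i, l i * θ i ^ n) ^ 2) := by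
  classical
  intro hs
  set J : Finset (Fin k) := univ.filter (fun i => l i ≠ 0) with hJ
  set eq := J.equivFin with heq
  have hsum : ∀ n : ℕ, ∑ i : Fin J.card, l (eq.symm i).1 * θ (eq.symm i).1 ^ n = ∑ i, l i * θ i ^ n := by
    intro n
    rw [Equiv.sum_comp eq.symm (fun i : J => l i.1 * θ i.1 ^ n),
      Finset.sum_coe_sort J (fun i => l i * θ i ^ n), hJ, Finset.sum_filter_of_ne]
    intro x _ hx h0
    apply hx
    rw [h0, zero_mul]
  obtain ⟨m, hm, hr, -⟩ := core hHK hRAT J.card (fun i => θ (eq.symm i).1) (fun i => l (eq.symm i).1)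
    (fun i j h => eq.symm.injective (Subtype.ext (hinj h))) (fun i => h1 _)
    (fun i => (mem_filter.1 (eq.symm i).2).2) (by
      refine hs.congr fun n => ?_
      rw [hsum])
  obtain ⟨i, hi⟩ := hl
  have hiJ : i ∈ J := mem_filter.2 ⟨mem_univ _, hi⟩
  have h2 := hr (eq ⟨i, hiJ⟩)
  simp only [Equiv.symm_apply_apply] at h2
  apply ht i
  refine ⟨m.map (algebraMap ℤ ℚ), (hm.map _).ne_zero, ?_⟩
  rw [aeval_map_algebraMap]
  exact h2

/-! ### linearity of `conv` -/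

lemma conv_eq (A : Set ℕ) (y : ℕ → ℝ) (n : ℕ) [DecidablePred (· ∈ A)] :
    conv A y n = ∑ a ∈ (range (n + 1)).filter (· ∈ A), y (n - a) := by
  unfold conv
  congr

lemma conv_sum {ι : Type} [Fintype ι] (A : Set ℕ) (c : ι → ℝ) (y : ι → ℕ → ℝ) (n : ℕ) :
    conv A (fun j => ∑ i, c i * y i j) n = ∑ i, c i * conv A (y i) n := by
  classical
  simp only [conv_eq]
  rw [Finset.sum_comm]
  exact Finset.sum_congr rfl fun i _ => by rw [Finset.mul_sum]

/-- the frequencies -/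
noncomputable def fr {k s : ℕ} (θ : Fin k → ℝ) (h : Fin k × Fin s → ℤ) (j : ℕ) : ℝ :=
  ∑ p : Fin k × Fin s, ((h p : ℝ) * θ p.1 ^ (p.2 : ℕ)) * θ p.1 ^ j

lemma fr_eq {k s : ℕ} (θ : Fin k → ℝ) (h : Fin k × Fin s → ℤ) (j : ℕ) :
    fr θ h j = ∑ i : Fin k, (∑ t : Fin s, (h (i, t) : ℝ) * θ i ^ (t : ℕ)) * θ i ^ j := by
  unfold fr
  rw [Fintype.sum_prod_type]
  exact Finset.sum_congr rfl fun i _ => by rw [Finset.sum_mul]

/-- **the set `A`** -/
theorem exists_set (hA : S_ASM) (T : Set ℝ) (hT : T.Countable) (K : ℕ) :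
    ∃ A : Set ℕ, DensityZero A ∧ 0 ∈ A ∧ (∀ a ∈ A, a = 0 ∨ K ≤ a) ∧
      ∀ (k s : ℕ) (θ : Fin k → ℝ) (h : Fin k × Fin s → ℤ), (∀ i, θ i ∈ T) →
        ¬ Summable (fun j => nrm (fr θ h j) ^ 2) →
        Tendsto (fun N : ℕ => ‖∑ n ∈ Icc 1 N, e (conv A (fr θ h) n)‖ / N) atTop (𝓝 0) := by
  classical
  have : Countable T := hT.to_subtype
  set I := Σ k : ℕ, Σ s : ℕ, (Fin k → T) × (Fin k × Fin s → ℤ) with hI
  have hIc : Countable I := inferInstance
  set Y : I → ℕ → ℝ := fun x => fr (fun i => (x.2.2.1 i : ℝ)) x.2.2.2 with hY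
  set S : Set (ℕ → ℝ) := insert (fun _ => (1 / 2 : ℝ)) (Set.range Y ∩ {y | ¬ Summable (fun j => nrm (y j) ^ 2)})
    with hS
  have hSc : S.Countable := ((Set.countable_range Y).mono Set.inter_subset_left).insert _
  obtain ⟨y, hy⟩ := hSc.exists_eq_range ⟨_, Set.mem_insert _ _⟩
  have hns : ∀ r, ¬ Summable (fun j => nrm (y r j) ^ 2) := by
    intro r
    have hmem : y r ∈ S := by rw [hy]; exact ⟨r, rfl⟩
    rcases Set.mem_insert_iff.1 hmem with h | h
    · rw [h]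
      intro hs
      have h1 := hs.tendsto_atTop_zero
      have h2 : (fun _ : ℕ => nrm (1 / 2 : ℝ) ^ 2) = fun _ => (1 / 4 : ℝ) := by
        funext _
        unfold nrm
        norm_num
      rw [h2] at h1
      have h3 := tendsto_nhds_unique h1 tendsto_const_nhds
      norm_num at h3
    · exact h.2
  obtain ⟨A, h1, h2, h3, h4⟩ := hA y K hns
  refine ⟨A, h1, h2, h3, fun k s θ h hθ hne => ?_⟩
  have hmem : fr θ h ∈ S := by
    apply Set.mem_insert_of_mem
    exact ⟨⟨⟨k, s, (fun i => ⟨θ i, hθ i⟩), h⟩, rfl⟩, hne⟩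
  rw [hy] at hmem
  obtain ⟨r, hr⟩ := hmem
  rw [← hr]
  exact h4 r

lemma vec (hTL : S_TL) (hWC : S_WC) (A : Set ℕ) (hA : DensityZero A) (k s : ℕ) (θ : Fin k → ℝ)
    (h1 : ∀ i, 1 < θ i)
    (hw : ∀ h : Fin k × Fin s → ℤ, h ≠ 0 →
      Tendsto (fun N : ℕ => ‖∑ n ∈ Icc 1 N, e (conv A (fr θ h) n)‖ / N) atTop (𝓝 0)) :
    Equi (fun (n : ℕ) (p : Fin k × Fin s) => xi A (θ p.1) * θ p.1 ^ (n + (p.2 : ℕ))) := by
  refine hWC _ _ (fun n p => θ p.1 ^ (p.2 : ℕ) * conv A (fun j => θ p.1 ^ j) n) (fun p => ?_) (fun h hh => ?_)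
  · have h2 := (hTL A (θ p.1) (h1 _) hA).const_mul (θ p.1 ^ (p.2 : ℕ))
    rw [mul_zero] at h2
    refine h2.congr fun N => ?_
    rw [← mul_div_assoc, Finset.mul_sum]
    congr 1
    refine Finset.sum_congr rfl fun n _ => ?_
    have h3 : 0 ≤ θ p.1 ^ (p.2 : ℕ) := pow_nonneg (by linarith [h1 p.1]) _
    rw [← abs_of_nonneg h3, ← abs_mul, abs_of_nonneg h3, pow_add]
    congr 1
    ring
  · refine (hw h hh).congr fun N => ?_
    congr 2
    refine Finset.sum_congr rfl fun n _ => ?_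
    congr 1
    have h4 : fr θ h = fun j => ∑ p : Fin k × Fin s, ((h p : ℝ) * θ p.1 ^ (p.2 : ℕ)) * θ p.1 ^ j := rfl
    rw [h4, conv_sum]
    exact Finset.sum_congr rfl fun p _ => by ring

/-- **the positive part** -/
theorem main_pos (hHK : S_HK) (hRAT : S_RAT) (hA : S_ASM) (hTL : S_TL) (hWC : S_WC)
    (T : Set ℝ) (hT : T.Countable) (hT1 : ∀ θ ∈ T, 1 < θ ∧ ¬ IsPisot θ) (K : ℕ) :
    ∃ A : Set ℕ, DensityZero A ∧ 0 ∈ A ∧ (∀ a ∈ A, a = 0 ∨ K ≤ a) ∧
      (∀ θ ∈ T, Equi (fun (n : ℕ) (_ : Unit) => xi A θ * θ ^ n)) ∧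
      ∀ (k s : ℕ) (θ : Fin k → ℝ), Function.Injective θ → (∀ i, θ i ∈ T ∧ Transcendental ℚ (θ i)) →
        Equi (fun (n : ℕ) (p : Fin k × Fin s) => xi A (θ p.1) * θ p.1 ^ (n + (p.2 : ℕ))) := by
  classical
  obtain ⟨A, h1, h2, h3, h4⟩ := exists_set hA T hT K
  refine ⟨A, h1, h2, h3, fun θ hθ => ?_, fun k s θ hinj hθ => ?_⟩
  · have h5 := vec hTL hWC A h1 1 1 (fun _ => θ) (fun _ => (hT1 θ hθ).1) (fun h hh => by
      refine h4 1 1 (fun _ => θ) h (fun _ => hθ) ?_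
      have h6 : (h (0, 0) : ℝ) ≠ 0 := by
        intro h7
        apply hh
        funext p
        have : p = (0, 0) := Subsingleton.elim _ _
        rw [this]
        simpa using h7
      have h8 : fr (fun _ : Fin 1 => θ) h = fun j => (h (0, 0) : ℝ) * θ ^ j := by
        funext j
        unfold fr
        rw [Fintype.sum_prod_type]
        simp
      rw [h8]
      exact notPisot hHK hRAT θ (hT1 θ hθ).1 (hT1 θ hθ).2 _ h6)
    intro a b hab
    have h6 := h5 (fun _ => a ()) (fun _ => b ()) (fun _ => hab ())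
    have h7 : ∏ p : Fin 1 × Fin 1, (b () - a ()) = ∏ i : Unit, (b i - a i) := by
      rw [Fintype.prod_prod_type]
      simp
    rw [h7] at h6
    refine h6.congr fun N => ?_
    congr 3
    apply Set.ext
    intro n
    simp only [Set.mem_setOf_eq]
    constructor
    · rintro ⟨q1, q2, q3⟩
      refine ⟨q1, q2, fun p => ?_⟩
      simpa using q3 (0, 0)
    · rintro ⟨q1, q2, q3⟩
      refine ⟨q1, q2, fun p => ?_⟩
      have hp : p = (0, 0) := Subsingleton.elim _ _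
      rw [hp]
      simpa using q3 ()
  · refine vec hTL hWC A h1 k s θ (fun i => (hT1 _ (hθ i).1).1) (fun h hh => ?_)
    refine h4 k s θ h (fun i => (hθ i).1) ?_
    have h5 : fr θ h = fun j => ∑ i : Fin k, (∑ t : Fin s, (h (i, t) : ℝ) * θ i ^ (t : ℕ)) * θ i ^ j := by
      funext j
      exact fr_eq θ h j
    rw [h5]
    refine notSum hHK hRAT k θ _ hinj (fun i => (hT1 _ (hθ i).1).1) (fun i => (hθ i).2) ?_
    by_contra hcon
    push Not at hcon
    apply hh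
    funext p
    obtain ⟨i, t⟩ := p
    -- the polynomial vanishes
    set P : ℚ[X] := ∑ t : Fin s, C (h (i, t) : ℚ) * X ^ (t : ℕ) with hP
    have h6 : aeval (θ i) P = 0 := by
      rw [hP, map_sum]
      simp only [map_mul, aeval_C, map_pow, aeval_X]
      rw [← hcon i]
      exact Finset.sum_congr rfl fun t _ => by simp
    have h7 : P = 0 := by
      by_contra hne
      exact (hθ i).2 ⟨P, hne, h6⟩
    have h8 : P.coeff (t : ℕ) = (h (i, t) : ℚ) := by
      rw [hP, finsetSum_coeff]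
      simp only [coeff_C_mul_X_pow]
      rw [Finset.sum_eq_single t]
      · simp
      · intro b _ hb
        rw [if_neg]
        intro hib
        exact hb (Fin.ext hib.symm)
      · simp
    rw [h7, coeff_zero] at h8
    simpa using h8.symm

/-- **the negative part** -/
theorem main_neg (hPW : S_PW) (hCV : S_CV) (hTL : S_TL) (θ : ℝ) (hθ : IsPisot θ) (A : Set ℕ) (hA : DensityZero A) :
    Tendsto (fun N : ℕ => (∑ n ∈ Icc 1 N, nrm (xi A θ * θ ^ n)) / N) atTop (𝓝 0) := by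
  obtain ⟨C, ρ, h0, h1, hC⟩ := hPW θ hθ
  have h2 := hCV A θ C ρ h0 h1 hC hA
  have h3 := hTL A θ hθ.1 hA
  have h4 := h2.add h3
  rw [add_zero] at h4
  refine squeeze_zero (fun N => ?_) (fun N => ?_) h4
  · exact div_nonneg (Finset.sum_nonneg fun n _ => nrm_nonneg _) (Nat.cast_nonneg _)
  · rw [← add_div, ← Finset.sum_add_distrib]
    apply div_le_div_of_nonneg_right _ (Nat.cast_nonneg _)
    refine Finset.sum_le_sum fun n _ => ?_
    have := nrm_add (conv A (fun j => θ ^ j) n) (xi A θ * θ ^ n - conv A (fun j => θ ^ j) n)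
    rwa [add_sub_cancel] at this

end Pool.Agent.N915.PV
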