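import Mathlib

/-!
# Sparse digits and powers of real numbers: statements
-/

set_option autoImplicit false

namespace Pool.Agent.N915.PV

open Finset Filter Topology Polynomial

/-- `exp(2πix)` -/
noncomputable def e (x : ℝ) : ℂ := Complex.exp (2 * Real.pi * x * Complex.I)

/-- the distance to the nearest integer -/
noncomputable def nrm (x : ℝ) : ℝ := |x - round x|

/-- a set of natural numbers of density zero -/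
def DensityZero (A : Set ℕ) : Prop :=
  Tendsto (fun N : ℕ => ((A ∩ Set.Icc 1 N).ncard : ℝ) / N) atTop (𝓝 0)

/-- the number `∑_{a ∈ A} θ^(-a)` -/
noncomputable def xi (A : Set ℕ) (θ : ℝ) : ℝ := ∑' a : ℕ, A.indicator (fun a => (θ⁻¹) ^ a) a

open Classical in
/-- the number `∑_{a ∈ A, a ≤ n} y (n - a)` -/
noncomputable def conv (A : Set ℕ) (y : ℕ → ℝ) (n : ℕ) : ℝ :=
  ∑ a ∈ (range (n + 1)).filter (· ∈ A), y (n - a)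

/-- equidistribution modulo one of a sequence of vectors -/
def Equi {ι : Type} [Fintype ι] (u : ℕ → ι → ℝ) : Prop :=
  ∀ a b : ι → ℝ, (∀ i, 0 ≤ a i ∧ a i < b i ∧ b i ≤ 1) →
    Tendsto (fun N : ℕ => (({n : ℕ | 1 ≤ n ∧ n ≤ N ∧ ∀ i, a i ≤ Int.fract (u n i) ∧
      Int.fract (u n i) < b i}.ncard : ℕ) : ℝ) / N) atTop (𝓝 (∏ i, (b i - a i)))

/-- Pisot numbers -/
def IsPisot (θ : ℝ) : Prop :=
  1 < θ ∧ IsIntegral ℤ θ ∧ ∀ z : ℂ, aeval z (minpoly ℚ θ) = 0 → z ≠ θ → ‖z‖ < 1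

/-- `HK`: Hankel determinants of nearest integers to a sum of exponentials -/
def S_HK : Prop := ∀ (k : ℕ) (θ l : Fin k → ℝ) (a : ℕ → ℤ),
  Summable (fun n : ℕ => ((a n : ℝ) - ∑ i, l i * θ i ^ n) ^ 2) →
  ∃ N0 : ℕ, ∀ N, N0 ≤ N → (Matrix.of fun i j : Fin N => (a ((i : ℕ) + (j : ℕ)) : ℂ)).det = 0

/-- `RAT`: the minimal recurrence of such a sequence -/
def S_RAT : Prop := ∀ (k : ℕ) (θ l : Fin k → ℝ) (a : ℕ → ℤ), Function.Injective θ →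
  (∀ i, 1 < θ i) → (∀ i, l i ≠ 0) →
  Summable (fun n : ℕ => ((a n : ℝ) - ∑ i, l i * θ i ^ n) ^ 2) →
  (∃ P Q : ℂ[X], Q ≠ 0 ∧ (Q : PowerSeries ℂ) * PowerSeries.mk (fun n => (a n : ℂ)) = (P : PowerSeries ℂ)) →
  ∃ m : ℤ[X], m.Monic ∧ (∀ i, aeval (θ i) m = 0) ∧
    ∀ z : ℂ, aeval z m = 0 → (∃ i, z = (θ i : ℂ)) ∨ ‖z‖ < 1

/-- `PW`: the powers of a Pisot number are close to integers -/
def S_PW : Prop := ∀ θ : ℝ, IsPisot θ → ∃ C ρ : ℝ, 0 ≤ ρ ∧ ρ < 1 ∧ ∀ n : ℕ, nrm (θ ^ n) ≤ C * ρ ^ n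

/-- `BLK`: random digits in one block -/
def S_BLK : Prop := ∀ (M R : ℕ) (p κ η : ℝ) (y z : Fin R → ℕ → ℝ), 1 ≤ M → 0 < p → p ≤ 1 / 2 →
  0 < η → η ≤ 1 → 0 ≤ κ →
  (∀ r, ∑ n ∈ range M, ∑ m ∈ range n, Real.exp (-(p * ∑ j ∈ range (n - m), nrm (y r j) ^ 2)) ≤ κ * (M : ℝ) ^ 2) →
  1000 * (R : ℝ) * (1 / M + κ) ≤ η ^ 3 →
  ∃ B : Finset ℕ, B ⊆ Ico M (2 * M) ∧ (B.card : ℝ) ≤ 3 * p * M ∧
    ∀ r, ∀ N ∈ Icc M (2 * M), ‖∑ n ∈ Ico M N, e (z r n + ∑ a ∈ B.filter (· ≤ n), y r (n - a))‖ ≤ η * M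

/-- `ASM`: a set of density zero for countably many sequences -/
def S_ASM : Prop := ∀ (y : ℕ → ℕ → ℝ) (K : ℕ), (∀ r, ¬ Summable (fun j => nrm (y r j) ^ 2)) →
  ∃ A : Set ℕ, DensityZero A ∧ 0 ∈ A ∧ (∀ a ∈ A, a = 0 ∨ K ≤ a) ∧
    ∀ r, Tendsto (fun N : ℕ => ‖∑ n ∈ Icc 1 N, e (conv A (y r) n)‖ / N) atTop (𝓝 0)

/-- `TL`: the tail of the expansion is small in the mean -/
def S_TL : Prop := ∀ (A : Set ℕ) (θ : ℝ), 1 < θ → DensityZero A →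
  Tendsto (fun N : ℕ => (∑ n ∈ Icc 1 N, |xi A θ * θ ^ n - conv A (fun j => θ ^ j) n|) / N) atTop (𝓝 0)

/-- `CV`: the digits of density zero in a Pisot base -/
def S_CV : Prop := ∀ (A : Set ℕ) (θ C ρ : ℝ), 0 ≤ ρ → ρ < 1 → (∀ n : ℕ, nrm (θ ^ n) ≤ C * ρ ^ n) → DensityZero A →
  Tendsto (fun N : ℕ => (∑ n ∈ Icc 1 N, nrm (conv A (fun j => θ ^ j) n)) / N) atTop (𝓝 0)

/-- `WC`: the criterion of Weyl, with a perturbation small in the mean -/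
def S_WC : Prop := ∀ (ι : Type) [Fintype ι] (u v : ℕ → ι → ℝ),
  (∀ i, Tendsto (fun N : ℕ => (∑ n ∈ Icc 1 N, |u n i - v n i|) / N) atTop (𝓝 0)) →
  (∀ h : ι → ℤ, h ≠ 0 → Tendsto (fun N : ℕ => ‖∑ n ∈ Icc 1 N, e (∑ i, h i * v n i)‖ / N) atTop (𝓝 0)) →
  Equi u

end Pool.Agent.N915.PV
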