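import Mathlib
import Pool.Agent.N915.PV.Stm
import Pool.Agent.H524R2.Forster

/-!
# PV/HK: Hankel determinants of nearest integers to a sum of exponentials (helper700)
-/

set_option autoImplicit false

namespace Pool.Agent.N915.PV.HK

open Finset Filter Topology Pool.Agent.N915.PV

/-- the operator of the recurrence -/
noncomputable def T (p : ℕ → ℝ) (k : ℕ) (s : ℕ → ℝ) (n : ℕ) : ℝ :=
  ∑ m ∈ range (k + 1), p m * s (n + m)

lemma summable_T (p : ℕ → ℝ) (k : ℕ) {s : ℕ → ℝ} (hs : Summable fun n => s n ^ 2) :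
    Summable fun n => T p k s n ^ 2 := by
  have h1 : ∀ n, T p k s n ^ 2 ≤ (∑ m ∈ range (k + 1), p m ^ 2) *
      ∑ m ∈ range (k + 1), s (n + m) ^ 2 := fun n => Finset.sum_mul_sq_le_sq_mul_sq _ _ _
  refine Summable.of_nonneg_of_le (fun n => sq_nonneg _) h1 ?_
  apply Summable.mul_left
  apply summable_sum
  intro m _
  exact (summable_nat_add_iff m).2 hs

/-- the matrix of the row operations -/
noncomputable def LL (p : ℕ → ℝ) (k : ℕ) (i j : ℕ) : ℝ :=
  if i < k then (if i = j then 1 else 0) else (if i - k ≤ j then p (j - (i - k)) else 0)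

lemma LL_sum {p : ℕ → ℝ} {k : ℕ} (hp : ∀ m, k < m → p m = 0) {N : ℕ} (i : Fin N) (s : ℕ → ℝ) :
    ∑ j : Fin N, LL p k i j * s j = if (i : ℕ) < k then s i else T p k s (i - k) := by
  rw [Fin.sum_univ_eq_sum_range (fun j => LL p k i j * s j) N]
  by_cases hi : (i : ℕ) < k
  · rw [if_pos hi]
    unfold LL
    simp only [if_pos hi, ite_mul, one_mul, zero_mul]
    rw [Finset.sum_ite_eq, if_pos (mem_range.2 i.2)]
  · rw [if_neg hi]
    have hi' := hi
    push Not at hi'
    obtain ⟨n, hn⟩ := Nat.exists_eq_add_of_le hi'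
    obtain ⟨q, hq⟩ := Nat.exists_eq_add_of_lt i.2
    have hN : N = n + (k + 1) + q := by omega
    have hik : (i : ℕ) - k = n := by omega
    rw [show Finset.range N = Finset.range (n + (k + 1) + q) by rw [← hN],
      Finset.sum_range_add, Finset.sum_range_add, hik]
    have h1 : ∑ x ∈ range n, LL p k i x * s x = 0 := by
      apply Finset.sum_eq_zero
      intro x hx
      have := mem_range.1 hx
      unfold LL
      rw [if_neg hi, if_neg (by omega), zero_mul]
    have h2 : ∑ x ∈ range q, LL p k i (n + (k + 1) + x) * s (n + (k + 1) + x) = 0 := by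
      apply Finset.sum_eq_zero
      intro x _
      unfold LL
      rw [if_neg hi, if_pos (by omega), hp _ (by omega), zero_mul]
    rw [h1, h2, zero_add, add_zero]
    unfold T
    refine Finset.sum_congr rfl fun x _ => ?_
    unfold LL
    rw [if_neg hi, if_pos (by omega), hik, Nat.add_sub_cancel_left]

/-- the transformed matrix -/
noncomputable def DD (p : ℕ → ℝ) (k : ℕ) (A : ℕ → ℝ) (i j : ℕ) : ℝ :=
  if i < k then (if j < k then A (i + j) else T p k A (i + (j - k)))
  else (if j < k then T p k A (i - k + j) else T p k (T p k A) (i - k + (j - k)))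

lemma det_eq {p : ℕ → ℝ} {k : ℕ} (hp : ∀ m, k < m → p m = 0) (hp1 : p k = 1) (A : ℕ → ℝ) (N : ℕ) :
    (Matrix.of fun i j : Fin N => A ((i : ℕ) + (j : ℕ))).det =
      (Matrix.of fun i j : Fin N => DD p k A i j).det := by
  set D : Matrix (Fin N) (Fin N) ℝ := Matrix.of fun i j : Fin N => A ((i : ℕ) + (j : ℕ)) with hD
  set L : Matrix (Fin N) (Fin N) ℝ := Matrix.of fun i j : Fin N => LL p k i j with hL
  have hdL : L.det = 1 := by
    rw [Matrix.det_of_isLowerTriangular]
    · apply Finset.prod_eq_one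
      intro i _
      rw [hL, Matrix.of_apply]
      unfold LL
      by_cases h1 : (i : ℕ) < k
      · rw [if_pos h1, if_pos rfl]
      · rw [if_neg h1, if_pos (Nat.sub_le _ _), show (i : ℕ) - (i - k) = k by omega, hp1]
    · intro i j hij
      have hij' : i < j := hij
      have hij2 : (i : ℕ) < j := hij'
      rw [hL, Matrix.of_apply]
      unfold LL
      split_ifs with h1 h2 h3
      · omega
      · rfl
      · exact hp _ (by omega)
      · rfl
  have hinner : ∀ (m : ℕ) (j : Fin N), ∑ m' : Fin N, A (m + m') * LL p k j m' =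
      if (j : ℕ) < k then A (m + j) else T p k A (m + (j - k)) := by
    intro m j
    have h1 := LL_sum hp j (fun x => A (m + x))
    have h2 : ∑ m' : Fin N, A (m + m') * LL p k j m' =
        ∑ m' : Fin N, LL p k j m' * A (m + m') :=
      Finset.sum_congr rfl fun _ _ => mul_comm _ _
    rw [h2, h1]
    split_ifs
    · rfl
    · unfold T
      refine Finset.sum_congr rfl fun t _ => ?_
      rw [add_assoc]
  have hprod : L * (D * L.transpose) = Matrix.of fun i j : Fin N => DD p k A i j := by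
    ext i j
    rw [Matrix.mul_apply, Matrix.of_apply]
    have h1 : ∀ m : Fin N, L i m * (D * L.transpose) m j = LL p k i m *
        (fun x : ℕ => if (j : ℕ) < k then A (x + j) else T p k A (x + (j - k))) m := by
      intro m
      rw [Matrix.mul_apply]
      have h2 : ∑ m' : Fin N, D m m' * L.transpose m' j =
          ∑ m' : Fin N, A ((m : ℕ) + m') * LL p k j m' := rfl
      rw [h2, hinner]
      rfl
    rw [Finset.sum_congr rfl fun m _ => h1 m, LL_sum hp i
      (fun x : ℕ => if (j : ℕ) < k then A (x + j) else T p k A (x + (j - k)))]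
    unfold DD
    by_cases hi : (i : ℕ) < k
    · rw [if_pos hi, if_pos hi]
    · rw [if_neg hi, if_neg hi]
      by_cases hj : (j : ℕ) < k
      · simp only [if_pos hj]
        unfold T
        refine Finset.sum_congr rfl fun t _ => ?_
        show p t * A ((i : ℕ) - k + t + j) = p t * A ((i : ℕ) - k + j + t)
        rw [show (i : ℕ) - k + t + j = (i : ℕ) - k + j + t by omega]
      · simp only [if_neg hj]
        have e3 : T p k (T p k A) ((i : ℕ) - k + ((j : ℕ) - k)) =
            ∑ t ∈ range (k + 1), p t * T p k A ((i : ℕ) - k + ((j : ℕ) - k) + t) := rfl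
        rw [e3]
        have e4 : T p k (fun x => T p k A (x + ((j : ℕ) - k))) ((i : ℕ) - k) =
            ∑ t ∈ range (k + 1), p t * T p k A ((i : ℕ) - k + t + ((j : ℕ) - k)) := rfl
        rw [e4]
        refine Finset.sum_congr rfl fun t _ => ?_
        rw [show (i : ℕ) - k + t + ((j : ℕ) - k) = (i : ℕ) - k + ((j : ℕ) - k) + t by omega]
  rw [← hprod, Matrix.det_mul, Matrix.det_mul, Matrix.det_transpose, hdL, one_mul, mul_one]

lemma prod_tendsto {r : ℕ → ℝ} (hr : Tendsto r atTop (𝓝 0)) :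
    Tendsto (fun n => ∏ s ∈ range n, r s) atTop (𝓝 0) := by
  apply Summable.tendsto_atTop_zero
  apply summable_of_ratio_norm_eventually_le (r := 1 / 2) (by norm_num)
  have h1 : ∀ᶠ n in atTop, |r n| < 1 / 2 := by
    have := hr.abs
    rw [abs_zero] at this
    exact this.eventually (gt_mem_nhds (by norm_num))
  filter_upwards [h1] with n hn
  rw [Finset.prod_range_succ, norm_mul, mul_comm]
  exact mul_le_mul_of_nonneg_right hn.le (norm_nonneg _)

/-- Hadamard's inequality -/
lemma had (N : ℕ) (F : ℕ → ℕ → ℝ) :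
    (Matrix.of fun i j : Fin N => F i j).det ^ 2 ≤
      ∏ i ∈ range N, ∑ j ∈ range N, F i j ^ 2 := by
  refine (Pool.Agent.H524R2.hadamard_ineq _).trans (le_of_eq ?_)
  rw [← Fin.prod_univ_eq_prod_range (fun i => ∑ j ∈ range N, F i j ^ 2) N]
  refine Finset.prod_congr rfl fun i _ => ?_
  rw [← Fin.sum_univ_eq_sum_range (fun j => F i j ^ 2) N]
  simp only [dotProduct, Matrix.of_apply, sq]

/-- the bound of the determinant -/
lemma det_bound (p : ℕ → ℝ) (k : ℕ) (A : ℕ → ℝ)
    (h1 : Summable fun n => T p k A n ^ 2) (h2 : Summable fun n => T p k (T p k A) n ^ 2) (n : ℕ) :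
    (Matrix.of fun i j : Fin (k + n) => DD p k A i j).det ^ 2 ≤
      (∏ i ∈ range k, (∑ j ∈ range k, A (i + j) ^ 2 + ∑' t, T p k A (t + i) ^ 2)) *
      ∏ s ∈ range n, (∑' t, T p k A (t + s) ^ 2 + ∑' t, T p k (T p k A) (t + s) ^ 2) := by
  refine (had (k + n) (DD p k A)).trans ?_
  have e1 : ∀ i : ℕ, ∑ j ∈ range (k + n), DD p k A i j ^ 2 =
      ∑ j ∈ range k, DD p k A i j ^ 2 + ∑ t ∈ range n, DD p k A i (k + t) ^ 2 := fun i =>
    Finset.sum_range_add _ _ _
  rw [Finset.prod_congr rfl fun i _ => e1 i, Finset.prod_range_add]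
  have pos1 : ∀ i : ℕ, 0 ≤ ∑ j ∈ range k, DD p k A i j ^ 2 +
      ∑ t ∈ range n, DD p k A i (k + t) ^ 2 := fun i =>
    add_nonneg (Finset.sum_nonneg fun _ _ => sq_nonneg _) (Finset.sum_nonneg fun _ _ => sq_nonneg _)
  have s1 : ∀ i, Summable fun t => T p k A (t + i) ^ 2 := fun i =>
    (summable_nat_add_iff (f := fun n => T p k A n ^ 2) i).2 h1
  have s2 : ∀ i, Summable fun t => T p k (T p k A) (t + i) ^ 2 := fun i =>
    (summable_nat_add_iff (f := fun n => T p k (T p k A) n ^ 2) i).2 h2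
  have b1 : ∀ i ∈ range k, ∑ j ∈ range k, DD p k A i j ^ 2 +
      ∑ t ∈ range n, DD p k A i (k + t) ^ 2 ≤
      ∑ j ∈ range k, A (i + j) ^ 2 + ∑' t, T p k A (t + i) ^ 2 := by
    intro i hi
    have hik := mem_range.1 hi
    have c1 : ∑ j ∈ range k, DD p k A i j ^ 2 = ∑ j ∈ range k, A (i + j) ^ 2 := by
      refine Finset.sum_congr rfl fun j hj => ?_
      rw [DD, if_pos hik, if_pos (mem_range.1 hj)]
    have c2 : ∑ t ∈ range n, DD p k A i (k + t) ^ 2 = ∑ t ∈ range n, T p k A (t + i) ^ 2 := by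
      refine Finset.sum_congr rfl fun t _ => ?_
      rw [DD, if_pos hik, if_neg (by omega), Nat.add_sub_cancel_left, add_comm]
    have c3 := (s1 i).sum_le_tsum (range n) fun _ _ => sq_nonneg _
    rw [c1, c2]
    linarith
  have b2 : ∀ s ∈ range n, ∑ j ∈ range k, DD p k A (k + s) j ^ 2 +
      ∑ t ∈ range n, DD p k A (k + s) (k + t) ^ 2 ≤
      ∑' t, T p k A (t + s) ^ 2 + ∑' t, T p k (T p k A) (t + s) ^ 2 := by
    intro s _
    have c1 : ∑ j ∈ range k, DD p k A (k + s) j ^ 2 = ∑ t ∈ range k, T p k A (t + s) ^ 2 := by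
      refine Finset.sum_congr rfl fun t ht => ?_
      rw [DD, if_neg (by omega), if_pos (mem_range.1 ht), Nat.add_sub_cancel_left, add_comm]
    have c2 : ∑ t ∈ range n, DD p k A (k + s) (k + t) ^ 2 =
        ∑ t ∈ range n, T p k (T p k A) (t + s) ^ 2 := by
      refine Finset.sum_congr rfl fun t _ => ?_
      rw [DD, if_neg (by omega), if_neg (by omega), Nat.add_sub_cancel_left,
        Nat.add_sub_cancel_left, add_comm s t]
    have c3 := (s1 s).sum_le_tsum (range k) fun _ _ => sq_nonneg _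
    have c4 := (s2 s).sum_le_tsum (range n) fun _ _ => sq_nonneg _
    rw [c1, c2]
    linarith
  have b3 : 0 ≤ ∏ i ∈ range k, (∑ j ∈ range k, A (i + j) ^ 2 + ∑' t, T p k A (t + i) ^ 2) :=
    Finset.prod_nonneg fun i hi => (pos1 i).trans (b1 i hi)
  exact mul_le_mul (Finset.prod_le_prod (fun i _ => pos1 i) b1)
    (Finset.prod_le_prod (fun i _ => pos1 _) b2) (Finset.prod_nonneg fun i _ => pos1 _) b3

/-- the recurrence kills the exponentials -/
lemma T_exp {k : ℕ} (θ l : Fin k → ℝ) (n : ℕ) :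
    T (fun m => (∏ i, (Polynomial.X - Polynomial.C (θ i))).coeff m) k
      (fun n => ∑ i, l i * θ i ^ n) n = 0 := by
  unfold T
  set P : Polynomial ℝ := ∏ i, (Polynomial.X - Polynomial.C (θ i)) with hP
  have hdeg : P.natDegree < k + 1 := by
    rw [hP, Polynomial.natDegree_prod_of_monic _ _ (fun i _ => Polynomial.monic_X_sub_C _)]
    simp
  have h1 : ∀ m, P.coeff m * ∑ i, l i * θ i ^ (n + m) =
      ∑ i, l i * θ i ^ n * (P.coeff m * θ i ^ m) := by
    intro m
    rw [Finset.mul_sum]
    refine Finset.sum_congr rfl fun i _ => ?_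
    rw [pow_add]
    ring
  rw [Finset.sum_congr rfl fun m _ => h1 m, Finset.sum_comm]
  apply Finset.sum_eq_zero
  intro i _
  rw [← Finset.mul_sum, ← Polynomial.eval_eq_sum_range' hdeg]
  have h2 : P.eval (θ i) = 0 := by
    rw [hP, Polynomial.eval_prod]
    apply Finset.prod_eq_zero (Finset.mem_univ i)
    simp
  rw [h2, mul_zero]

end Pool.Agent.N915.PV.HK

namespace Pool.Agent.N915.PV

open Finset Filter Topology

theorem hk : S_HK := by
  intro k θ l a hs
  set P : Polynomial ℝ := ∏ i, (Polynomial.X - Polynomial.C (θ i)) with hP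
  have hmon : P.Monic := Polynomial.monic_prod_of_monic _ _ fun i _ => Polynomial.monic_X_sub_C _
  have hdeg : P.natDegree = k := by
    rw [hP, Polynomial.natDegree_prod_of_monic _ _ (fun i _ => Polynomial.monic_X_sub_C _)]
    simp
  set p : ℕ → ℝ := fun m => P.coeff m with hp
  have hp0 : ∀ m, k < m → p m = 0 := fun m hm =>
    Polynomial.coeff_eq_zero_of_natDegree_lt (by rw [hdeg]; exact hm)
  have hp1 : p k = 1 := by
    have := hmon.coeff_natDegree
    rwa [hdeg] at this
  set A : ℕ → ℝ := fun n => (a n : ℝ) with hA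
  have hT : ∀ n, HK.T p k A n = HK.T p k (fun n => (a n : ℝ) - ∑ i, l i * θ i ^ n) n := by
    intro n
    have h1 := HK.T_exp θ l n
    have h2 : HK.T p k (fun n => (a n : ℝ) - ∑ i, l i * θ i ^ n) n =
        HK.T p k A n - HK.T p k (fun n => ∑ i, l i * θ i ^ n) n := by
      unfold HK.T
      rw [← Finset.sum_sub_distrib]
      refine Finset.sum_congr rfl fun m _ => ?_
      rw [hA]
      ring
    rw [h2, h1, sub_zero]
  have hs1 : Summable fun n => HK.T p k A n ^ 2 := by
    have := HK.summable_T p k hs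
    refine this.congr fun n => ?_
    rw [hT]
  have hs2 : Summable fun n => HK.T p k (HK.T p k A) n ^ 2 := HK.summable_T p k hs1
  have hr : Tendsto (fun s => ∑' t, HK.T p k A (t + s) ^ 2 +
      ∑' t, HK.T p k (HK.T p k A) (t + s) ^ 2) atTop (𝓝 0) := by
    have h1 := tendsto_sum_nat_add (fun t => HK.T p k A t ^ 2)
    have h2 := tendsto_sum_nat_add (fun t => HK.T p k (HK.T p k A) t ^ 2)
    simpa using h1.add h2
  have hpr := (HK.prod_tendsto hr).const_mul
    (∏ i ∈ range k, (∑ j ∈ range k, A (i + j) ^ 2 + ∑' t, HK.T p k A (t + i) ^ 2))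
  rw [mul_zero] at hpr
  obtain ⟨n0, hn0⟩ := eventually_atTop.1 (hpr.eventually (gt_mem_nhds one_pos))
  refine ⟨k + n0, fun N hN => ?_⟩
  obtain ⟨q, rfl⟩ := Nat.exists_eq_add_of_le hN
  have hb := (HK.det_bound p k A hs1 hs2 (n0 + q)).trans_lt (hn0 (n0 + q) (by omega))
  rw [← HK.det_eq hp0 hp1 A, ← add_assoc] at hb
  set Z : Matrix (Fin (k + n0 + q)) (Fin (k + n0 + q)) ℤ :=
    Matrix.of fun i j => a ((i : ℕ) + (j : ℕ)) with hZ
  have e1 : (Matrix.of fun i j : Fin (k + n0 + q) => A ((i : ℕ) + (j : ℕ))).det = (Z.det : ℝ) := by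
    have := RingHom.map_det (Int.castRingHom ℝ) Z
    rw [eq_intCast] at this
    rw [this]
    rfl
  have e2 : (Matrix.of fun i j : Fin (k + n0 + q) => (a ((i : ℕ) + (j : ℕ)) : ℂ)).det =
      (Z.det : ℂ) := by
    have := RingHom.map_det (Int.castRingHom ℂ) Z
    rw [eq_intCast] at this
    rw [this]
    rfl
  rw [e1] at hb
  have hz : Z.det = 0 := by
    have h1 : Z.det ^ 2 < 1 := by exact_mod_cast hb
    have h2 := sq_nonneg Z.det
    have h3 : Z.det ^ 2 = 0 := by omega
    exact pow_eq_zero_iff (two_ne_zero) |>.1 h3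
  rw [e2, hz, Int.cast_zero]

end Pool.Agent.N915.PV
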