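import Pool.Agent.N915.PV.Stm

/-!
# Project PV, part PW (helper50): the powers of a Pisot number are close to integers
-/

set_option autoImplicit false

namespace Pool.Agent.N915.PV

open Finset Filter Topology Polynomial IntermediateField

theorem pw : S_PW := by
  classical
  rintro θ ⟨h1, hint, hroots⟩
  have hintQ : IsIntegral ℚ θ := hint.tower_top
  have hfd : FiniteDimensional ℚ ℚ⟮θ⟯ := adjoin.finiteDimensional hintQ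
  set γ : ℚ⟮θ⟯ := AdjoinSimple.gen ℚ θ with hγ
  have hγθ : (γ : ℝ) = θ := AdjoinSimple.coe_gen ℚ θ
  have hγint : IsIntegral ℤ γ := by
    have h2 : IsIntegral ℤ (algebraMap ℚ⟮θ⟯ ℝ γ) := by
      have : algebraMap ℚ⟮θ⟯ ℝ γ = θ := hγθ
      rw [this]
      exact hint
    exact (isIntegral_algebraMap_iff (algebraMap ℚ⟮θ⟯ ℝ).injective).1 h2
  have hγ0 : aeval γ (minpoly ℚ θ) = 0 := by
    have h2 := aeval_algHom_apply (ℚ⟮θ⟯).val γ (minpoly ℚ θ)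
    change aeval (γ : ℝ) (minpoly ℚ θ) = ((aeval γ (minpoly ℚ θ) : ℚ⟮θ⟯) : ℝ) at h2
    rw [hγθ, minpoly.aeval] at h2
    exact Subtype.ext h2.symm
  -- the given embedding
  let σ0 : ℚ⟮θ⟯ →ₐ[ℚ] ℂ := ((Complex.ofRealAm.restrictScalars ℚ).comp (ℚ⟮θ⟯).val)
  have hσ0 : σ0 γ = (θ : ℂ) := by
    change ((γ : ℝ) : ℂ) = θ
    rw [hγθ]
  have hne : ∀ σ : ℚ⟮θ⟯ →ₐ[ℚ] ℂ, σ ≠ σ0 → ‖σ γ‖ < 1 := by
    intro σ hσ
    apply hroots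
    · rw [aeval_algHom_apply, hγ0, map_zero]
    · intro h2
      apply hσ
      refine algHom_ext_of_eq_adjoin ℚ (S := ℚ⟮θ⟯) (s := {θ}) rfl ?_
      intro x hx
      have hx' : x = θ := hx
      subst hx'
      change σ γ = σ0 γ
      rw [h2, hσ0]
  -- the largest absolute value
  set ρ : NNReal := (univ.filter fun σ : ℚ⟮θ⟯ →ₐ[ℚ] ℂ => σ ≠ σ0).sup fun σ => ‖σ γ‖₊ with hρ
  have hρ1 : ρ < 1 := by
    rw [hρ, Finset.sup_lt_iff (by norm_num)]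
    intro σ hσ
    rw [mem_filter] at hσ
    have := hne σ hσ.2
    exact_mod_cast this
  have hle : ∀ σ : ℚ⟮θ⟯ →ₐ[ℚ] ℂ, σ ≠ σ0 → ‖σ γ‖ ≤ ρ := by
    intro σ hσ
    have : ‖σ γ‖₊ ≤ ρ := by
      rw [hρ]
      exact Finset.le_sup (f := fun σ : ℚ⟮θ⟯ →ₐ[ℚ] ℂ => ‖σ γ‖₊)
        (mem_filter.2 ⟨mem_univ σ, hσ⟩)
    exact_mod_cast this
  refine ⟨((univ.filter fun σ : ℚ⟮θ⟯ →ₐ[ℚ] ℂ => σ ≠ σ0).card : ℝ), ρ, ρ.2,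
    by exact_mod_cast hρ1, fun n => ?_⟩
  -- the trace
  obtain ⟨k, hk⟩ : ∃ k : ℤ, (k : ℚ) = Algebra.trace ℚ ℚ⟮θ⟯ (γ ^ n) := by
    have h2 : IsIntegral ℤ (Algebra.trace ℚ ℚ⟮θ⟯ (γ ^ n)) :=
      Algebra.isIntegral_trace (hγint.pow n)
    obtain ⟨k, hk⟩ := IsIntegrallyClosed.isIntegral_iff.1 h2
    exact ⟨k, by rw [← hk]; rfl⟩
  have htr := trace_eq_sum_embeddings (K := ℚ) (L := ℚ⟮θ⟯) ℂ (x := γ ^ n)
  rw [← hk] at htr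
  have hsplit : ∑ σ : ℚ⟮θ⟯ →ₐ[ℚ] ℂ, σ (γ ^ n) =
      (θ : ℂ) ^ n + ∑ σ ∈ univ.filter (fun σ : ℚ⟮θ⟯ →ₐ[ℚ] ℂ => σ ≠ σ0), (σ γ) ^ n := by
    rw [← Finset.add_sum_erase univ _ (mem_univ σ0), map_pow, hσ0]
    congr 1
    have : univ.erase σ0 = univ.filter (fun σ : ℚ⟮θ⟯ →ₐ[ℚ] ℂ => σ ≠ σ0) := by
      ext σ
      simp
    rw [this]
    exact Finset.sum_congr rfl fun σ _ => map_pow σ γ n
  rw [hsplit] at htr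
  have h3 : nrm (θ ^ n) ≤ |θ ^ n - k| := round_le (θ ^ n) k
  refine h3.trans ?_
  have h4 : ((θ ^ n - k : ℝ) : ℂ) =
      -∑ σ ∈ univ.filter (fun σ : ℚ⟮θ⟯ →ₐ[ℚ] ℂ => σ ≠ σ0), (σ γ) ^ n := by
    have h5 : (algebraMap ℚ ℂ) ((k : ℤ) : ℚ) = (k : ℂ) := by simp
    rw [h5] at htr
    push_cast
    rw [htr]
    ring
  have h6 : |θ ^ n - k| = ‖((θ ^ n - k : ℝ) : ℂ)‖ := (Complex.norm_real _).symm
  rw [h6, h4, norm_neg]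
  calc ‖∑ σ ∈ univ.filter (fun σ : ℚ⟮θ⟯ →ₐ[ℚ] ℂ => σ ≠ σ0), (σ γ) ^ n‖ ≤
      ∑ σ ∈ univ.filter (fun σ : ℚ⟮θ⟯ →ₐ[ℚ] ℂ => σ ≠ σ0), ‖(σ γ) ^ n‖ := norm_sum_le _ _
    _ ≤ ∑ _σ ∈ univ.filter (fun σ : ℚ⟮θ⟯ →ₐ[ℚ] ℂ => σ ≠ σ0), (ρ : ℝ) ^ n := by
        refine Finset.sum_le_sum fun σ hσ => ?_
        rw [mem_filter] at hσ
        rw [norm_pow]
        exact pow_le_pow_left₀ (norm_nonneg _) (hle σ hσ.2) n
    _ = _ := by rw [sum_const, nsmul_eq_mul]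

end Pool.Agent.N915.PV
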