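import Pool.Agent.N915.PV.Stm

/-!
# The minimal recurrence of a sequence of integers close to a sum of exponentials
-/

set_option autoImplicit false

namespace Pool.Agent.N915.PV.RatAux

open Finset Filter Topology Polynomial

section act

variable {R : Type*} [CommRing R]

/-- the action of a polynomial on a sequence -/
noncomputable def act (s : ℕ → R) (i : ℕ) : R[X] →ₗ[R] R :=
  Polynomial.lsum fun l => LinearMap.toSpanSingleton R R (s (i + l))

theorem act_monomial (s : ℕ → R) (i l : ℕ) (a : R) : act s i (monomial l a) = a * s (i + l) := by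
  unfold act
  rw [Polynomial.lsum_apply, Polynomial.sum_monomial_index]
  · rfl
  · simp

theorem act_eq (s : ℕ → R) (i : ℕ) (p : R[X]) :
    act s i p = ∑ l ∈ range (p.natDegree + 1), p.coeff l * s (i + l) := by
  unfold act
  rw [Polynomial.lsum_apply, Polynomial.sum_over_range]
  · rfl
  · simp

theorem act_eq' (s : ℕ → R) (i : ℕ) (p : R[X]) (N : ℕ) (hN : p.natDegree ≤ N) :
    act s i p = ∑ l ∈ range (N + 1), p.coeff l * s (i + l) := by
  rw [act_eq]
  apply Finset.sum_subset
  · intro l hl
    rw [mem_range] at hl ⊢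
    omega
  · intro l _ hl
    rw [mem_range] at hl
    rw [coeff_eq_zero_of_natDegree_lt (by omega), zero_mul]

theorem act_mul (s : ℕ → R) (p q : R[X]) (i : ℕ) :
    act s i (p * q) = act (fun j => act s j q) i p := by
  induction p using Polynomial.induction_on' with
  | add p1 p2 h1 h2 => rw [add_mul, map_add, map_add, h1, h2]
  | monomial l a =>
    rw [act_monomial]
    induction q using Polynomial.induction_on' with
    | add q1 q2 h1 h2 => rw [mul_add, map_add, h1, h2, map_add, mul_add]
    | monomial k b =>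
      rw [monomial_mul_monomial, act_monomial, act_monomial, add_assoc]
      ring

theorem act_map {R' : Type*} [CommRing R'] (f : R →+* R') (s : ℕ → R) (i : ℕ) (p : R[X]) :
    act (fun j => f (s j)) i (p.map f) = f (act s i p) := by
  induction p using Polynomial.induction_on' with
  | add p1 p2 h1 h2 => rw [Polynomial.map_add, map_add, map_add, map_add, h1, h2]
  | monomial l a => rw [Polynomial.map_monomial, act_monomial, act_monomial, map_mul]

theorem act_zero (p : R[X]) (i : ℕ) : act (fun _ => (0 : R)) i p = 0 := by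
  rw [act_eq]
  simp

theorem act_add (s t : ℕ → R) (p : R[X]) (i : ℕ) :
    act (fun n => s n + t n) i p = act s i p + act t i p := by
  rw [act_eq, act_eq, act_eq, ← Finset.sum_add_distrib]
  exact Finset.sum_congr rfl fun l _ => mul_add _ _ _

theorem act_geom {ι : Type*} (S : Finset ι) (c t : ι → R) (p : R[X]) (i : ℕ) :
    act (fun n => ∑ j ∈ S, c j * t j ^ n) i p = ∑ j ∈ S, c j * t j ^ i * p.eval (t j) := by
  rw [act_eq]
  simp only [Finset.mul_sum]
  rw [Finset.sum_comm]
  refine Finset.sum_congr rfl fun j _ => ?_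
  rw [eval_eq_sum_range, Finset.mul_sum]
  refine Finset.sum_congr rfl fun l _ => ?_
  rw [pow_add]
  ring

end act

theorem act_tendsto (s : ℕ → ℂ) (hs : Tendsto s atTop (𝓝 0)) (p : ℂ[X]) :
    Tendsto (fun n => act s n p) atTop (𝓝 0) := by
  simp only [act_eq]
  have h : Tendsto (fun n => ∑ l ∈ range (p.natDegree + 1), p.coeff l * s (n + l)) atTop
      (𝓝 (∑ l ∈ range (p.natDegree + 1), p.coeff l * 0)) := by
    apply tendsto_finsetSum
    intro l _
    exact ((tendsto_add_atTop_iff_nat l).2 hs).const_mul _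
  simpa using h

/-- Fatou's lemma -/
theorem fatou (a : ℕ → ℤ) (v : ℚ[X]) (hv : v ≠ 0)
    (hrec : ∀ i, act (fun n => (a n : ℚ)) i v = 0) :
    ∃ m : ℤ[X], m.Monic ∧ ∀ i, act a i m = 0 := by
  set d := v.natDegree with hd
  set w : ℕ → (Fin d → ℤ) := fun i j => a (i + j) with hw
  have hmono : Monotone fun n : ℕ => Submodule.span ℤ (Set.range fun i : Fin n => w i) := by
    intro n n' hn
    apply Submodule.span_mono
    rintro _ ⟨i, rfl⟩
    exact ⟨⟨i, lt_of_lt_of_le i.2 hn⟩, rfl⟩
  obtain ⟨n, hn⟩ := (monotone_stabilizes_iff_noetherian (R := ℤ) (M := Fin d → ℤ)).2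
    inferInstance ⟨_, hmono⟩
  have hn1 : Submodule.span ℤ (Set.range fun i : Fin n => w i) =
      Submodule.span ℤ (Set.range fun i : Fin (n + 1) => w i) := hn (n + 1) (Nat.le_succ n)
  have hmem : w n ∈ Submodule.span ℤ (Set.range fun i : Fin n => w i) := by
    rw [hn1]
    exact Submodule.subset_span ⟨Fin.last n, rfl⟩
  rw [Submodule.mem_span_range_iff_exists_fun] at hmem
  obtain ⟨c, hc⟩ := hmem
  set m0 : ℤ[X] := ∑ i : Fin n, monomial (i : ℕ) (c i) with hm0
  have hdeg : m0.degree < n := by
    rw [Polynomial.degree_lt_iff_coeff_zero]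
    intro k hk
    rw [hm0, Polynomial.finsetSum_coeff]
    refine Finset.sum_eq_zero fun i _ => ?_
    rw [Polynomial.coeff_monomial, if_neg]
    have := i.2
    omega
  refine ⟨X ^ n - m0, Polynomial.monic_X_pow_sub hdeg, ?_⟩
  set m := X ^ n - m0 with hm
  have hact : ∀ i, act a i m = a (i + n) - ∑ k : Fin n, c k * a (i + k) := by
    intro i
    rw [hm, map_sub, ← Polynomial.monomial_one_right_eq_X_pow, act_monomial, one_mul, hm0,
      map_sum]
    congr 1
    refine Finset.sum_congr rfl fun k _ => ?_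
    rw [act_monomial]
  have hsmall : ∀ i < d, act a i m = 0 := by
    intro i hi
    rw [hact]
    have h1 := congrFun hc ⟨i, hi⟩
    simp only [Finset.sum_apply, Pi.smul_apply, smul_eq_mul, hw] at h1
    rw [add_comm i n, ← h1, sub_eq_zero]
    refine Finset.sum_congr rfl fun k _ => ?_
    rw [add_comm i]
  have hmap : ∀ i, act (fun n => (a n : ℚ)) i (m.map (Int.castRingHom ℚ)) = (act a i m : ℚ) :=
    fun i => act_map (Int.castRingHom ℚ) a i m
  have hv' : ∀ i, act (fun j => ((act a j m : ℤ) : ℚ)) i v = 0 := by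
    intro i
    have e1 : (fun j => ((act a j m : ℤ) : ℚ)) =
        fun j => act (fun n => (a n : ℚ)) j (m.map (Int.castRingHom ℚ)) :=
      funext fun j => (hmap j).symm
    rw [e1, ← act_mul, mul_comm, act_mul]
    have e2 : (fun j => act (fun n => (a n : ℚ)) j v) = fun _ => (0 : ℚ) := funext hrec
    rw [e2, act_zero]
  intro i
  induction i using Nat.strong_induction_on with
  | _ i ih =>
    rcases lt_or_ge i d with h | h
    · exact hsmall i h
    · have h1 := hv' (i - d)
      rw [act_eq, Finset.sum_range_succ, Finset.sum_eq_zero, zero_add] at h1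
      · rw [← hd, Nat.sub_add_cancel h] at h1
        have h2 : v.coeff d ≠ 0 := by
          rw [hd]
          exact Polynomial.leadingCoeff_ne_zero.2 hv
        exact_mod_cast (mul_eq_zero.1 h1).resolve_left h2
      · intro l hl
        rw [Finset.mem_range] at hl
        have h3 : i - d + l < i := by omega
        rw [ih _ h3]
        simp

/-- from complex to rational recurrences -/
theorem to_rat (a : ℕ → ℤ) (v : ℂ[X]) (hv : v ≠ 0)
    (hrec : ∀ i, act (fun n => (a n : ℂ)) i v = 0) :
    ∃ w : ℚ[X], w ≠ 0 ∧ w.natDegree ≤ v.natDegree ∧ ∀ i, act (fun n => (a n : ℚ)) i w = 0 := by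
  have hl : v.leadingCoeff ≠ 0 := leadingCoeff_ne_zero.2 hv
  obtain ⟨φ, hφ⟩ : ∃ φ : Module.Dual ℚ ℂ, φ v.leadingCoeff ≠ 0 := by
    by_contra h
    push Not at h
    exact hl ((Module.forall_dual_apply_eq_zero_iff ℚ _).1 h)
  set w : ℚ[X] := ∑ l ∈ range (v.natDegree + 1), monomial l (φ (v.coeff l)) with hw
  have hcoeff : ∀ k ≤ v.natDegree, w.coeff k = φ (v.coeff k) := by
    intro k hk
    rw [hw, finsetSum_coeff, Finset.sum_eq_single k]
    · rw [coeff_monomial, if_pos rfl]
    · intro l _ hl
      rw [coeff_monomial, if_neg hl]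
    · intro h
      exact absurd (mem_range.2 (by omega)) h
  have hdeg : w.natDegree ≤ v.natDegree := by
    rw [hw]
    apply natDegree_sum_le_of_forall_le
    intro l hl
    rw [mem_range] at hl
    exact (natDegree_monomial_le _).trans (by omega)
  refine ⟨w, ?_, hdeg, ?_⟩
  · intro h
    apply hφ
    have := hcoeff v.natDegree le_rfl
    rw [h, coeff_zero] at this
    exact this.symm
  · intro i
    have h1 := hrec i
    rw [act_eq] at h1
    rw [act_eq' _ _ _ _ hdeg]
    have h2 := congrArg φ h1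
    rw [map_sum, map_zero] at h2
    rw [← h2]
    refine Finset.sum_congr rfl fun l hl => ?_
    rw [mem_range] at hl
    rw [hcoeff l (by omega)]
    have e : v.coeff l * ((a (i + l) : ℤ) : ℂ) = ((a (i + l) : ℤ) : ℚ) • v.coeff l := by
      rw [Algebra.smul_def, mul_comm]
      simp
    rw [e, map_smul, smul_eq_mul, mul_comm]

/-- from the generating function to a recurrence -/
theorem from_series (a : ℕ → ℤ) (P Q : ℂ[X]) (hQ : Q ≠ 0)
    (h : (Q : PowerSeries ℂ) * PowerSeries.mk (fun n => (a n : ℂ)) = (P : PowerSeries ℂ)) :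
    ∃ v : ℂ[X], v ≠ 0 ∧ ∀ i, act (fun n => (a n : ℂ)) i v = 0 := by
  obtain ⟨D, hD⟩ : ∃ D : ℕ, D = max Q.natDegree (P.natDegree + 1) := ⟨_, rfl⟩
  refine ⟨Q.reflect D, fun h0 => hQ (reflect_eq_zero_iff.1 h0), fun i => ?_⟩
  have hdeg : (Q.reflect D).natDegree ≤ D := by
    rw [natDegree_le_iff_coeff_eq_zero]
    intro k hk
    rw [coeff_reflect, revAt_eq_self_of_lt hk]
    exact coeff_eq_zero_of_natDegree_lt (by omega)
  rw [act_eq' _ _ _ _ hdeg]
  have h1 := congrArg (PowerSeries.coeff (i + D)) h
  rw [PowerSeries.coeff_mul, Finset.Nat.sum_antidiagonal_eq_sum_range_succ_mk,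
    Polynomial.coeff_coe, coeff_eq_zero_of_natDegree_lt (by omega)] at h1
  simp only [Polynomial.coeff_coe, PowerSeries.coeff_mk] at h1
  rw [← h1, ← Finset.sum_range_reflect]
  have h2 : ∑ k ∈ range (i + D + 1), Q.coeff k * (a (i + D - k) : ℂ) =
      ∑ k ∈ range (D + 1), Q.coeff k * (a (i + D - k) : ℂ) := by
    symm
    apply Finset.sum_subset
    · intro l hl
      rw [mem_range] at hl ⊢
      omega
    · intro l _ hl
      rw [mem_range] at hl
      rw [coeff_eq_zero_of_natDegree_lt (by omega), zero_mul]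
  rw [show (i + D).succ = i + D + 1 from rfl, h2]
  refine Finset.sum_congr rfl fun l hl => ?_
  rw [mem_range] at hl
  rw [coeff_reflect, revAt_le (by omega)]
  have e1 : D - (D + 1 - 1 - l) = l := by omega
  have e2 : i + (D + 1 - 1 - l) = i + D - l := by omega
  rw [e1, e2]

theorem const_zero {c t : ℂ} (ht : 1 ≤ ‖t‖) (h : Tendsto (fun n : ℕ => c * t ^ n) atTop (𝓝 0)) :
    c = 0 := by
  by_contra hc
  have h1 : 0 < ‖c‖ := norm_pos_iff.2 hc
  have h2 := (tendsto_zero_iff_norm_tendsto_zero.1 h)
  have h3 : ∀ᶠ n : ℕ in atTop, ‖c * t ^ n‖ < ‖c‖ := h2.eventually (gt_mem_nhds h1)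
  obtain ⟨n, hn⟩ := h3.exists
  rw [norm_mul, norm_pow] at hn
  have h4 : 1 ≤ ‖t‖ ^ n := one_le_pow₀ ht
  nlinarith

end Pool.Agent.N915.PV.RatAux

namespace Pool.Agent.N915.PV

open Finset Filter Topology Polynomial RatAux

theorem rat : S_RAT := by
  intro k θ l a hθinj hθ hl hsum hrat
  classical
  obtain ⟨P0, Q0, hQ0, hPQ⟩ := hrat
  obtain ⟨v, hv, hvrec⟩ := from_series a P0 Q0 hQ0 hPQ
  obtain ⟨w, hw, -, hwrec⟩ := to_rat a v hv hvrec
  obtain ⟨m0, hm0, hm0rec⟩ := fatou a w hw hwrec
  -- the annihilator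
  let I : Ideal ℚ[X] :=
    { carrier := {p | ∀ i, act (fun n => (a n : ℚ)) i p = 0}
      add_mem' := by
        intro p q hp hq i
        rw [map_add, hp i, hq i, add_zero]
      zero_mem' := by
        intro i
        rw [map_zero]
      smul_mem' := by
        intro r p hp i
        rw [smul_eq_mul, act_mul]
        have e2 : (fun j => act (fun n => (a n : ℚ)) j p) = fun _ => (0 : ℚ) := funext hp
        rw [e2, act_zero] }
  have hI : ∀ p : ℚ[X], p ∈ I ↔ ∀ i, act (fun n => (a n : ℚ)) i p = 0 := fun p => Iff.rfl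
  set g0 := Submodule.IsPrincipal.generator I with hg0
  have hdvd0 : ∀ p, p ∈ I ↔ g0 ∣ p := fun p => Submodule.IsPrincipal.mem_iff_generator_dvd I
  have hg0ne : g0 ≠ 0 := by
    intro h
    have := (hdvd0 w).1 ((hI w).2 hwrec)
    rw [h, zero_dvd_iff] at this
    exact hw this
  have hlc : g0.leadingCoeff ≠ 0 := leadingCoeff_ne_zero.2 hg0ne
  set g := g0 * C (g0.leadingCoeff⁻¹) with hg
  have hgm : g.Monic := monic_mul_leadingCoeff_inv hg0ne
  have hgdvd : ∀ p, p ∈ I ↔ g ∣ p := by
    intro p
    rw [hdvd0]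
    have hu : IsUnit (C (g0.leadingCoeff⁻¹) : ℚ[X]) := isUnit_C.2 (isUnit_iff_ne_zero.2 (inv_ne_zero hlc))
    exact (hu.mul_right_dvd).symm
  have hmem0 : m0.map (algebraMap ℤ ℚ) ∈ I := by
    rw [hI]
    intro i
    have := act_map (Int.castRingHom ℚ) a i m0
    rw [hm0rec i, map_zero] at this
    exact this
  obtain ⟨m, hm⟩ := IsIntegrallyClosed.eq_map_mul_C_of_dvd ℚ hm0 ((hgdvd _).1 hmem0)
  rw [hgm.leadingCoeff, C_1, mul_one] at hm
  have hmm : m.Monic := by
    have h1 : (m.map (algebraMap ℤ ℚ)).Monic := by rw [hm]; exact hgm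
    exact (Function.Injective.monic_map_iff (RingHom.injective_int (algebraMap ℤ ℚ))).2 h1
  have hmrec : ∀ i, act (fun n => (a n : ℂ)) i (m.map (Int.castRingHom ℂ)) = 0 := by
    intro i
    have h1 := act_map (Int.castRingHom ℂ) a i m
    have h2 := act_map (Int.castRingHom ℚ) a i m
    have h3 : act (fun n => (a n : ℚ)) i g = 0 := (hI g).1 ((hgdvd g).2 dvd_rfl) i
    have h4 : act (fun n => (a n : ℚ)) i (m.map (Int.castRingHom ℚ)) = 0 := by
      have : m.map (Int.castRingHom ℚ) = g := hm
      rw [this, h3]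
    have h5 : ((act a i m : ℤ) : ℚ) = 0 := h2.symm.trans h4
    have h6 : act a i m = 0 := by exact_mod_cast h5
    rw [h6, map_zero] at h1
    exact h1
  -- the error
  set ε : ℕ → ℂ := fun n => (a n : ℂ) - ∑ i, (l i : ℂ) * (θ i : ℂ) ^ n with hε
  have hεt : Tendsto ε atTop (𝓝 0) := by
    have h1 := hsum.tendsto_atTop_zero
    have h2 : Tendsto (fun n : ℕ => (a n : ℝ) - ∑ i, l i * θ i ^ n) atTop (𝓝 0) := by
      rw [tendsto_zero_iff_abs_tendsto_zero]
      have h3 := (Real.continuous_sqrt.tendsto 0).comp h1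
      rw [Real.sqrt_zero] at h3
      refine h3.congr fun n => ?_
      simp only [Function.comp]
      rw [Real.sqrt_sq_eq_abs]
    have h4 := (Complex.continuous_ofReal.tendsto 0).comp h2
    rw [Complex.ofReal_zero] at h4
    refine h4.congr fun n => ?_
    simp [ε]
  have hsplit : ∀ (p : ℂ[X]) (i : ℕ), act (fun n => (a n : ℂ)) i p =
      ∑ j, (l j : ℂ) * (θ j : ℂ) ^ i * p.eval (θ j : ℂ) + act ε i p := by
    intro p i
    rw [← act_geom, ← act_add]
    congr 2
    funext n
    rw [hε]
    simp only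
    ring
  have hθn : ∀ i, 1 ≤ ‖(θ i : ℂ)‖ := by
    intro i
    rw [Complex.norm_real, Real.norm_eq_abs]
    exact (hθ i).le.trans (le_abs_self _)
  refine ⟨m, hmm, ?_, ?_⟩
  · -- the `θ i` are roots
    intro i
    set Pi' : ℂ[X] := ∏ j ∈ univ.erase i, (X - C (θ j : ℂ)) with hPi
    have h1 : ∀ n, act (fun n => (a n : ℂ)) n (Pi' * m.map (Int.castRingHom ℂ)) = 0 := by
      intro n
      rw [act_mul]
      have e2 : (fun j => act (fun n => (a n : ℂ)) j (m.map (Int.castRingHom ℂ))) =
          fun _ => (0 : ℂ) := funext hmrec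
      rw [e2, act_zero]
    have h2 : ∀ j ≠ i, Pi'.eval (θ j : ℂ) = 0 := by
      intro j hj
      rw [hPi, eval_prod]
      apply Finset.prod_eq_zero (mem_erase.2 ⟨hj, mem_univ j⟩)
      simp
    have h3 : Pi'.eval (θ i : ℂ) ≠ 0 := by
      rw [hPi, eval_prod, Finset.prod_ne_zero_iff]
      intro j hj
      rw [mem_erase] at hj
      rw [eval_sub, eval_X, eval_C, sub_ne_zero]
      intro h
      exact hj.1 (hθinj (by exact_mod_cast h.symm))
    have h4 : Tendsto (fun n : ℕ => ((l i : ℂ) * (Pi' * m.map (Int.castRingHom ℂ)).eval (θ i : ℂ)) *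
        (θ i : ℂ) ^ n) atTop (𝓝 0) := by
      have h5 := (act_tendsto ε hεt (Pi' * m.map (Int.castRingHom ℂ))).neg
      rw [neg_zero] at h5
      refine h5.congr fun n => ?_
      have h6 := hsplit (Pi' * m.map (Int.castRingHom ℂ)) n
      rw [h1 n, Finset.sum_eq_single i] at h6
      · linear_combination h6
      · intro j _ hj
        rw [eval_mul, h2 j hj, zero_mul, mul_zero]
      · intro h
        exact absurd (mem_univ i) h
    have h5 := const_zero (hθn i) h4
    rw [eval_mul] at h5
    have hli : (l i : ℂ) ≠ 0 := by exact_mod_cast hl i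
    have h6 : (m.map (Int.castRingHom ℂ)).eval (θ i : ℂ) = 0 := by
      rcases mul_eq_zero.1 h5 with h | h
      · exact absurd h hli
      · rcases mul_eq_zero.1 h with h | h
        · exact absurd h h3
        · exact h
    have h7 : ((aeval (θ i) m : ℝ) : ℂ) = 0 := by
      rw [← h6, aeval_def, eval₂_eq_eval_map]
      have h8 := Polynomial.eval_map_apply (f := Complex.ofRealHom)
        (p := m.map (algebraMap ℤ ℝ)) (θ i)
      rw [Polynomial.map_map] at h8
      have h9 : Complex.ofRealHom.comp (algebraMap ℤ ℝ) = Int.castRingHom ℂ := RingHom.ext_int _ _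
      rw [h9] at h8
      exact h8.symm
    exact_mod_cast h7
  · -- the other roots
    intro α hα
    by_contra hcon
    push Not at hcon
    obtain ⟨hne, hα1⟩ := hcon
    set mC := m.map (Int.castRingHom ℂ) with hmC
    have hroot : mC.IsRoot α := by
      rw [IsRoot, hmC, ← hα, aeval_def, eval₂_eq_eval_map]
      rfl
    obtain ⟨q, hq⟩ := dvd_iff_isRoot.2 hroot
    have hmCm : mC.Monic := hmm.map _
    have hqne : q ≠ 0 := by
      rintro rfl
      rw [mul_zero] at hq
      exact hmCm.ne_zero hq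
    have hdegq : q.natDegree < m.natDegree := by
      have h1 : mC.natDegree = m.natDegree := hmm.natDegree_map _
      rw [← h1, hq, natDegree_mul (X_sub_C_ne_zero α) hqne, natDegree_X_sub_C]
      omega
    set b : ℕ → ℂ := fun j => act (fun n => (a n : ℂ)) j q with hb
    have hb1 : ∀ n, b (n + 1) = α * b n := by
      intro n
      have h1 := hmrec n
      rw [hq, act_mul, map_sub, ← monomial_one_one_eq_X, act_monomial,
        ← monomial_zero_left, act_monomial, one_mul, add_zero] at h1
      exact sub_eq_zero.1 h1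
    have hb2 : ∀ n, b n = b 0 * α ^ n := by
      intro n
      induction n with
      | zero => simp
      | succ n ih => rw [hb1, ih, pow_succ]; ring
    set P : ℂ[X] := ∏ j : Fin k, (X - C (θ j : ℂ)) with hP
    have hPα : P.eval α ≠ 0 := by
      rw [hP, eval_prod, Finset.prod_ne_zero_iff]
      intro j _
      rw [eval_sub, eval_X, eval_C, sub_ne_zero]
      exact hne j
    have hPθ : ∀ j, P.eval (θ j : ℂ) = 0 := by
      intro j
      rw [hP, eval_prod]
      apply Finset.prod_eq_zero (mem_univ j)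
      simp
    have h4 : Tendsto (fun n : ℕ => (b 0 * P.eval α) * α ^ n) atTop (𝓝 0) := by
      refine (act_tendsto ε hεt (P * q)).congr fun n => ?_
      have h6 := hsplit (P * q) n
      rw [Finset.sum_eq_zero (fun j _ => by rw [eval_mul, hPθ j, zero_mul, mul_zero]),
        zero_add] at h6
      rw [← h6, act_mul]
      have h7 : (fun j => act (fun n => (a n : ℂ)) j q) =
          fun n => ∑ j ∈ ({0} : Finset ℕ), b 0 * α ^ n := by
        funext n
        rw [Finset.sum_singleton]
        exact hb2 n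
      rw [h7, act_geom ({0} : Finset ℕ) (fun _ => b 0) (fun _ => α), Finset.sum_singleton]
      ring
    have h5 := const_zero hα1 h4
    have hb0 : b 0 = 0 := (mul_eq_zero.1 h5).resolve_right hPα
    obtain ⟨w', hw', hdeg', hrec'⟩ := to_rat a q hqne (fun i => by
      have := hb2 i
      rw [hb0, zero_mul] at this
      exact this)
    have h6 : g ∣ w' := (hgdvd w').1 ((hI w').2 hrec')
    have h7 := natDegree_le_of_dvd h6 hw'
    have h8 : g.natDegree = m.natDegree := by
      rw [← hm]
      exact hmm.natDegree_map _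
    omega

end Pool.Agent.N915.PV
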