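import Pool.Agent.N915.PV.Stm

set_option autoImplicit false

/-!
# Project PV, part TL: the tail is small in the mean
-/

namespace Pool.Agent.N915.PV.TL

open Finset Filter Topology Polynomial Pool.Agent.N915.PV

/-- the tail -/
noncomputable def tt (A : Set ℕ) (θ : ℝ) (n : ℕ) : ℝ :=
  xi A θ * θ ^ n - conv A (fun j => θ ^ j) n

/-- the counting function -/
noncomputable def cc (A : Set ℕ) (N : ℕ) : ℝ := ((A ∩ Set.Icc 1 N).ncard : ℝ)

lemma ind_bd (A : Set ℕ) {θ : ℝ} (hθ : 1 < θ) (a : ℕ) :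
    0 ≤ A.indicator (fun a => (θ⁻¹) ^ a) a ∧ A.indicator (fun a => (θ⁻¹) ^ a) a ≤ (θ⁻¹) ^ a := by
  have h0 : 0 ≤ (θ⁻¹) ^ a := by positivity
  by_cases h : a ∈ A
  · rw [Set.indicator_of_mem h]
    exact ⟨h0, le_rfl⟩
  · rw [Set.indicator_of_notMem h]
    exact ⟨le_rfl, h0⟩

lemma summ (A : Set ℕ) {θ : ℝ} (hθ : 1 < θ) : Summable fun a : ℕ => A.indicator (fun a => (θ⁻¹) ^ a) a :=
  Summable.of_nonneg_of_le (fun a => (ind_bd A hθ a).1) (fun a => (ind_bd A hθ a).2)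
    (summable_geometric_of_lt_one (by positivity) (inv_lt_one_of_one_lt₀ hθ))

lemma conv_eq (A : Set ℕ) {θ : ℝ} (hθ : 1 < θ) (n : ℕ) : conv A (fun j => θ ^ j) n =
    θ ^ n * ∑ a ∈ range (n + 1), A.indicator (fun a => (θ⁻¹) ^ a) a := by
  classical
  unfold conv
  rw [sum_filter, mul_sum]
  refine sum_congr rfl fun a ha => ?_
  rw [mem_range] at ha
  have hθ0 : θ ≠ 0 := by linarith
  by_cases h : a ∈ A
  · rw [if_pos h, Set.indicator_of_mem h, inv_pow]
    exact pow_sub₀ θ hθ0 (by omega)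
  · rw [if_neg h, Set.indicator_of_notMem h, mul_zero]

lemma tt_eq (A : Set ℕ) {θ : ℝ} (hθ : 1 < θ) (n : ℕ) :
    tt A θ n = θ ^ n * ∑' a : ℕ, A.indicator (fun a => (θ⁻¹) ^ a) (a + (n + 1)) := by
  unfold tt
  rw [conv_eq A hθ, mul_comm (xi A θ), ← mul_sub]
  congr 1
  rw [xi, ← (summ A hθ).sum_add_tsum_nat_add (n + 1)]
  ring

lemma tt_nonneg (A : Set ℕ) {θ : ℝ} (hθ : 1 < θ) (n : ℕ) : 0 ≤ tt A θ n := by
  rw [tt_eq A hθ]
  exact mul_nonneg (by positivity) (tsum_nonneg fun a => (ind_bd A hθ _).1)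

lemma tt_le (A : Set ℕ) {θ : ℝ} (hθ : 1 < θ) (n : ℕ) : tt A θ n ≤ 1 / (θ - 1) := by
  rw [tt_eq A hθ]
  have hθ0 : 0 < θ := by linarith
  have hs := summable_geometric_of_lt_one (r := θ⁻¹) (by positivity) (inv_lt_one_of_one_lt₀ hθ)
  have h1 : ∑' a : ℕ, A.indicator (fun a => (θ⁻¹) ^ a) (a + (n + 1)) ≤
      ∑' a : ℕ, (θ⁻¹) ^ (n + 1) * (θ⁻¹) ^ a := by
    apply Summable.tsum_le_tsum
    · intro a
      refine (ind_bd A hθ _).2.trans (le_of_eq ?_)
      rw [pow_add]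
      ring
    · exact (summable_nat_add_iff (n + 1)).2 (summ A hθ)
    · exact hs.mul_left _
  rw [tsum_mul_left, tsum_geometric_of_lt_one (by positivity) (inv_lt_one_of_one_lt₀ hθ)] at h1
  refine (mul_le_mul_of_nonneg_left h1 (by positivity)).trans (le_of_eq ?_)
  have h2 : θ - 1 ≠ 0 := by linarith
  have h3 : 1 - θ⁻¹ ≠ 0 := by
    have := inv_lt_one_of_one_lt₀ hθ
    linarith
  rw [inv_pow, pow_succ]
  field_simp

open Classical in
lemma tt_rec (A : Set ℕ) {θ : ℝ} (hθ : 1 < θ) (n : ℕ) :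
    θ * tt A θ n = (if n + 1 ∈ A then 1 else 0) + tt A θ (n + 1) := by
  have hθ0 : θ ≠ 0 := by linarith
  unfold tt
  rw [conv_eq A hθ, conv_eq A hθ, sum_range_succ _ (n + 1), pow_succ]
  by_cases h : n + 1 ∈ A
  · rw [if_pos h, Set.indicator_of_mem h, inv_pow, pow_succ]
    field_simp
    ring
  · rw [if_neg h, Set.indicator_of_notMem h]
    ring

open Classical in
lemma cc_succ (A : Set ℕ) (N : ℕ) : cc A (N + 1) = cc A N + (if N + 1 ∈ A then 1 else 0) := by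
  unfold cc
  by_cases h : N + 1 ∈ A
  · rw [if_pos h]
    have e1 : A ∩ Set.Icc 1 (N + 1) = insert (N + 1) (A ∩ Set.Icc 1 N) := by
      ext x
      simp only [Set.mem_inter_iff, Set.mem_Icc, Set.mem_insert_iff]
      constructor
      · rintro ⟨h1, h2, h3⟩
        by_cases hx : x = N + 1
        · exact Or.inl hx
        · exact Or.inr ⟨h1, h2, by omega⟩
      · rintro (rfl | ⟨h1, h2, h3⟩)
        · exact ⟨h, by omega, le_rfl⟩
        · exact ⟨h1, h2, by omega⟩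
    rw [e1, Set.ncard_insert_of_notMem]
    · push_cast
      rfl
    · intro hx
      have := hx.2.2
      omega
  · rw [if_neg h, add_zero]
    congr 2
    ext x
    simp only [Set.mem_inter_iff, Set.mem_Icc]
    constructor
    · rintro ⟨h1, h2, h3⟩
      refine ⟨h1, h2, ?_⟩
      by_contra hx
      have : x = N + 1 := by omega
      rw [this] at h1
      exact h h1
    · rintro ⟨h1, h2, h3⟩
      exact ⟨h1, h2, by omega⟩

lemma tel (A : Set ℕ) {θ : ℝ} (hθ : 1 < θ) (N : ℕ) :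
    (θ - 1) * ∑ n ∈ Icc 1 N, tt A θ n + cc A 1 + tt A θ 1 = cc A (N + 1) + tt A θ (N + 1) := by
  classical
  induction N with
  | zero => simp
  | succ N ih =>
    rw [sum_Icc_succ_top (by omega), mul_add]
    have h1 := tt_rec A hθ (N + 1)
    have h2 := cc_succ A (N + 1)
    rw [h2]
    linarith

theorem main : S_TL := by
  intro A θ hθ hA
  have hθ1 : 0 < θ - 1 := by linarith
  have hb : ∀ N : ℕ, (∑ n ∈ Icc 1 N, |xi A θ * θ ^ n - conv A (fun j => θ ^ j) n|) / N ≤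
      (cc A N / N + (1 + 1 / (θ - 1)) / N) / (θ - 1) := by
    intro N
    have h1 : ∑ n ∈ Icc 1 N, |xi A θ * θ ^ n - conv A (fun j => θ ^ j) n| = ∑ n ∈ Icc 1 N, tt A θ n :=
      sum_congr rfl fun n _ => abs_of_nonneg (tt_nonneg A hθ n)
    rw [h1]
    have h2 := tel A hθ N
    have h3 : cc A (N + 1) ≤ cc A N + 1 := by
      classical
      rw [cc_succ]
      split_ifs <;> linarith
    have h4 := tt_le A hθ (N + 1)
    have h5 := tt_nonneg A hθ 1
    have h6 : 0 ≤ cc A 1 := Nat.cast_nonneg _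
    have h7 : ∑ n ∈ Icc 1 N, tt A θ n ≤ (cc A N + (1 + 1 / (θ - 1))) / (θ - 1) := by
      rw [le_div_iff₀ hθ1]
      linarith
    calc (∑ n ∈ Icc 1 N, tt A θ n) / N ≤ ((cc A N + (1 + 1 / (θ - 1))) / (θ - 1)) / N :=
          div_le_div_of_nonneg_right h7 (Nat.cast_nonneg _)
      _ = _ := by
          rw [div_right_comm, add_div]
  have hlim : Tendsto (fun N : ℕ => (cc A N / N + (1 + 1 / (θ - 1)) / N) / (θ - 1)) atTop (𝓝 0) := by
    have h1 : Tendsto (fun N : ℕ => (1 + 1 / (θ - 1)) / (N : ℝ)) atTop (𝓝 0) :=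
      tendsto_const_div_atTop_nhds_zero_nat _
    have h2 : Tendsto (fun N : ℕ => cc A N / N) atTop (𝓝 0) := hA
    have h3 := (h2.add h1).div_const (θ - 1)
    simpa using h3
  exact squeeze_zero (fun N => div_nonneg (sum_nonneg fun _ _ => abs_nonneg _) (Nat.cast_nonneg _)) hb hlim

end Pool.Agent.N915.PV.TL

namespace Pool.Agent.N915.PV

theorem tl : S_TL := TL.main

end Pool.Agent.N915.PV
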