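import Pool.Agent.N915.PV.Stm
import Pool.Agent.R485.TransS.Box

/-!
# The criterion of Weyl with a perturbation (helper861)
-/

set_option autoImplicit false

namespace Pool.Agent.N915.PV

open Finset Filter Topology

namespace WCaux

theorem e_add (x y : ℝ) : e (x + y) = e x * e y := by
  unfold e
  rw [← Complex.exp_add]
  congr 1
  push_cast
  ring

theorem norm_e (x : ℝ) : ‖e x‖ = 1 := by
  unfold e
  rw [show 2 * (Real.pi : ℂ) * x * Complex.I = ((2 * Real.pi * x : ℝ) : ℂ) * Complex.I by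
    push_cast; ring]
  exact Complex.norm_exp_ofReal_mul_I _

theorem e_sub_le (x y : ℝ) : ‖e x - e y‖ ≤ 2 * Real.pi * |x - y| := by
  have h1 : e x - e y = e y * (e (x - y) - 1) := by
    rw [mul_sub, mul_one, ← e_add]
    congr 2
    ring
  rw [h1, norm_mul, norm_e, one_mul]
  have h2 := Real.norm_exp_I_mul_ofReal_sub_one_le (x := 2 * Real.pi * (x - y))
  have h3 : Complex.exp (Complex.I * ((2 * Real.pi * (x - y) : ℝ) : ℂ)) = e (x - y) := by
    unfold e
    congr 1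
    push_cast
    ring
  rw [h3] at h2
  refine h2.trans (le_of_eq ?_)
  rw [Real.norm_eq_abs, abs_mul, abs_of_pos Real.two_pi_pos]

theorem e_eq (x : ℝ) : Pool.Agent.Y933.KD.e x = e x := by
  unfold Pool.Agent.Y933.KD.e e
  congr 1
  push_cast
  ring

/-- the exponential sums of `u` -/
theorem sums {ι : Type} [Fintype ι] (u v : ℕ → ι → ℝ)
    (huv : ∀ i, Tendsto (fun N : ℕ => (∑ n ∈ Icc 1 N, |u n i - v n i|) / N) atTop (𝓝 0))
    (h : ι → ℤ)
    (hv : Tendsto (fun N : ℕ => ‖∑ n ∈ Icc 1 N, e (∑ i, h i * v n i)‖ / N) atTop (𝓝 0)) :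
    Tendsto (fun N : ℕ => ‖∑ n ∈ Icc 1 N, e (∑ i, h i * u n i)‖ / N) atTop (𝓝 0) := by
  have h1 : Tendsto (fun N : ℕ => ‖∑ n ∈ Icc 1 N, e (∑ i, h i * v n i)‖ / N +
      ∑ i, 2 * Real.pi * |(h i : ℝ)| * ((∑ n ∈ Icc 1 N, |u n i - v n i|) / N)) atTop (𝓝 0) := by
    have h2 : Tendsto (fun N : ℕ =>
        ∑ i, 2 * Real.pi * |(h i : ℝ)| * ((∑ n ∈ Icc 1 N, |u n i - v n i|) / N)) atTop
        (𝓝 (∑ i, 2 * Real.pi * |(h i : ℝ)| * 0)) :=
      tendsto_finset_sum _ fun i _ => (huv i).const_mul _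
    simpa using hv.add h2
  refine squeeze_zero (fun N => by positivity) (fun N => ?_) h1
  have h3 : ‖∑ n ∈ Icc 1 N, e (∑ i, h i * u n i)‖ ≤ ‖∑ n ∈ Icc 1 N, e (∑ i, h i * v n i)‖ +
      ∑ i, 2 * Real.pi * |(h i : ℝ)| * (∑ n ∈ Icc 1 N, |u n i - v n i|) := by
    have h4 : ∑ n ∈ Icc 1 N, e (∑ i, h i * u n i) = ∑ n ∈ Icc 1 N, e (∑ i, h i * v n i) +
        ∑ n ∈ Icc 1 N, (e (∑ i, h i * u n i) - e (∑ i, h i * v n i)) := by
      rw [Finset.sum_sub_distrib]
      ring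
    rw [h4]
    refine (norm_add_le _ _).trans (add_le_add_right ?_ _)
    refine (norm_sum_le _ _).trans ?_
    have h5 : ∑ i, 2 * Real.pi * |(h i : ℝ)| * (∑ n ∈ Icc 1 N, |u n i - v n i|) =
        ∑ n ∈ Icc 1 N, ∑ i, 2 * Real.pi * |(h i : ℝ)| * |u n i - v n i| := by
      rw [Finset.sum_comm]
      refine Finset.sum_congr rfl fun i _ => ?_
      rw [Finset.mul_sum]
    rw [h5]
    refine Finset.sum_le_sum fun n _ => (e_sub_le _ _).trans ?_
    rw [← Finset.sum_sub_distrib]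
    have h6 : |∑ i, ((h i : ℝ) * u n i - h i * v n i)| ≤ ∑ i, |(h i : ℝ)| * |u n i - v n i| := by
      refine (Finset.abs_sum_le_sum_abs _ _).trans (le_of_eq ?_)
      refine Finset.sum_congr rfl fun i _ => ?_
      rw [← mul_sub, abs_mul]
    refine (mul_le_mul_of_nonneg_left h6 Real.two_pi_pos.le).trans (le_of_eq ?_)
    rw [Finset.mul_sum]
    refine Finset.sum_congr rfl fun i _ => ?_
    ring
  have h7 := div_le_div_of_nonneg_right h3 (Nat.cast_nonneg (α := ℝ) N)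
  refine h7.trans (le_of_eq ?_)
  rw [add_div, Finset.sum_div]
  congr 1
  refine Finset.sum_congr rfl fun i _ => ?_
  ring

end WCaux

open WCaux

theorem wc : S_WC := by
  classical
  intro ι _ u v huv hv a b hab
  set d := Fintype.card ι with hd
  set σ : ι ≃ Fin d := Fintype.equivFin ι with hσ
  have hu : ∀ h : ι → ℤ, h ≠ 0 →
      Tendsto (fun N : ℕ => ‖∑ n ∈ Icc 1 N, e (∑ i, h i * u n i)‖ / N) atTop (𝓝 0) :=
    fun h hh => sums u v huv h (hv h hh)
  rw [Metric.tendsto_atTop]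
  intro δ hδ
  obtain ⟨K, hK⟩ := exists_nat_gt (24 * (d : ℝ) / δ)
  have hK0 : 0 < K + 1 := Nat.succ_pos K
  have hKd : (d : ℝ) * (12 / ((K + 1 : ℕ) : ℝ)) < δ / 2 := by
    have h1 : (0 : ℝ) < ((K + 1 : ℕ) : ℝ) := by exact_mod_cast hK0
    have h2 : 24 * (d : ℝ) < ((K + 1 : ℕ) : ℝ) * δ := by
      have h3 : 24 * (d : ℝ) / δ < ((K + 1 : ℕ) : ℝ) := by
        push_cast
        linarith
      rwa [div_lt_iff₀ hδ] at h3
    rw [mul_div_assoc', div_lt_iff₀ h1]
    linarith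
  obtain ⟨K', hK'⟩ : ∃ K' : ℕ, K' = K + 1 := ⟨_, rfl⟩
  rw [← hK'] at hK0 hKd
  set M : ℝ := (2 * (K' : ℝ) ^ 3 + 1) ^ d + 5 * d with hM
  have hM0 : 0 < M := by positivity
  set Δ : ℝ := δ / (2 * M) with hΔ
  have hΔ0 : 0 < Δ := by positivity
  have hMΔ : M * Δ = δ / 2 := by
    rw [hΔ]
    field_simp
  -- finitely many sums
  set B : Finset (Fin d → ℤ) := Fintype.piFinset fun _ => Finset.Icc (-(K' : ℤ) ^ 3) ((K' : ℤ) ^ 3)
    with hB
  have hev : ∀ᶠ N : ℕ in atTop, ∀ h ∈ B, h ≠ 0 →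
      ‖∑ n ∈ Icc 1 N, e (∑ i, h i * u n (σ.symm i))‖ / N < Δ := by
    rw [Filter.eventually_all_finset]
    intro h _
    by_cases hh : h = 0
    · exact Eventually.of_forall fun _ h0 => absurd hh h0
    · have h1 := hu (fun i => h (σ i)) (fun h0 => hh (by
        funext i
        have h2 := congrFun h0 (σ.symm i)
        simpa using h2))
      have h2 : ∀ n, ∑ i, ((fun i => h (σ i)) i : ℝ) * u n i = ∑ i, (h i : ℝ) * u n (σ.symm i) := by
        intro n
        rw [← Equiv.sum_comp σ (fun i => (h i : ℝ) * u n (σ.symm i))]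
        refine Finset.sum_congr rfl fun i _ => ?_
        rw [Equiv.symm_apply_apply]
      simp only [h2] at h1
      filter_upwards [h1.eventually_lt_const hΔ0] with N hN _ using hN
  obtain ⟨N0, hN0⟩ := eventually_atTop.1 hev
  refine ⟨N0 + 1, fun N hN => ?_⟩
  have hN1 : 1 ≤ N := by omega
  have hNpos : (0 : ℝ) < N := by exact_mod_cast hN1
  have hs : (Icc 1 N).Nonempty := ⟨1, Finset.mem_Icc.2 ⟨le_rfl, hN1⟩⟩
  have hcard : (Icc 1 N).card = N := by simp
  have hbox := Pool.Agent.R485.TransS.weyl_box (d := d) (K := K') hK0 (Icc 1 N) hs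
    (fun n i => u n (σ.symm i)) Δ hΔ0.le (fun h hh hhK => by
      have h1 := hN0 N (by omega) h (Fintype.mem_piFinset.2 fun i =>
        Finset.mem_Icc.2 (abs_le.1 (hhK i))) hh
      rw [hcard]
      simp only [e_eq]
      rw [div_lt_iff₀ hNpos] at h1
      exact h1.le) (fun i => a (σ.symm i)) (fun i => b (σ.symm i)) (fun i => (hab _).1)
      (fun i => (hab _).2.1.le) (fun i => (hab _).2.2)
  rw [hcard] at hbox
  have hprod : ∏ i, (b (σ.symm i) - a (σ.symm i)) = ∏ i, (b i - a i) :=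
    Equiv.prod_comp σ.symm (fun i => b i - a i)
  rw [hprod] at hbox
  have hcount : ({n : ℕ | 1 ≤ n ∧ n ≤ N ∧ ∀ i, a i ≤ Int.fract (u n i) ∧
      Int.fract (u n i) < b i}.ncard : ℕ) = ((Icc 1 N).filter (fun n => ∀ i,
        a (σ.symm i) ≤ Int.fract (u n (σ.symm i)) ∧
          Int.fract (u n (σ.symm i)) < b (σ.symm i))).card := by
    rw [← Set.ncard_coe_finset]
    congr 1
    ext n
    simp only [Set.mem_setOf_eq, Finset.coe_filter, Finset.mem_Icc]
    constructor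
    · rintro ⟨h1, h2, h3⟩
      exact ⟨⟨h1, h2⟩, fun i => h3 _⟩
    · rintro ⟨⟨h1, h2⟩, h3⟩
      refine ⟨h1, h2, fun i => ?_⟩
      have h4 := h3 (σ i)
      rwa [Equiv.symm_apply_apply] at h4
  rw [hcount, Real.dist_eq]
  set c : ℝ := (((Icc 1 N).filter (fun n => ∀ i,
        a (σ.symm i) ≤ Int.fract (u n (σ.symm i)) ∧
          Int.fract (u n (σ.symm i)) < b (σ.symm i))).card : ℝ) with hc
  have e1 : c / N - ∏ i, (b i - a i) = (c - N * ∏ i, (b i - a i)) / N := by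
    field_simp
  rw [e1, abs_div, abs_of_pos hNpos, div_lt_iff₀ hNpos]
  refine lt_of_le_of_lt hbox ?_
  refine mul_lt_mul_of_pos_right ?_ hNpos
  have e2 : (2 * (K' : ℝ) ^ 3 + 1) ^ d * Δ + d * (12 / K' + 5 * Δ) = M * Δ + d * (12 / K') := by
    rw [hM]
    ring
  rw [e2, hMΔ]
  linarith

end Pool.Agent.N915.PV
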